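import Pool.Agent.H459R3.EU.Defs

/-!
Fourier-Galerkin truncations of the Euler equations.
-/

set_option autoImplicit false

open MeasureTheory Set
open scoped ContDiff

namespace Pool.Agent.U571.EG

open H459R3.NS

/-- The frequencies `k` with `|k j| ≤ n` for all `j`. -/
noncomputable def boxF (n : ℕ) : Finset K3 := Fintype.piFinset fun _ => Finset.Icc (-(n : ℤ)) n

/-- The truncated Fourier series of a real periodic function: the sum of the terms with frequency
`k`, `|k j| ≤ n` for all `j`. -/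
noncomputable def PN (n : ℕ) (f : V → ℝ) (x : V) : ℝ := (∑ k ∈ boxF n, fr f k * ee k x).re

/-- `(v, q)` is a solution on `[0, T)` of the Fourier-Galerkin truncation of the Euler equations
with the frequencies `|k j| ≤ n`: `v` is `C^∞` on `[0, T) × ℝ³`, `v(t)` and `q(t)` are equal to
their truncated Fourier series, `div v = 0` and `∂ₜ vᵢ + Pₙ((v · ∇) vᵢ) = -∂ᵢ q`. -/
structure IsGal (n : ℕ) (T : ℝ) (v : ℝ → V → V) (q : ℝ → V → ℝ) : Prop where
  smooth_v : ContDiffOn ℝ ∞ (fun z : ℝ × V => v z.1 z.2) (Ico 0 T ×ˢ univ)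
  band_v : ∀ t ∈ Ico 0 T, ∀ x i, PN n (fun y => v t y i) x = v t x i
  band_q : ∀ t ∈ Ico 0 T, ∀ x, PN n (q t) x = q t x
  divfree : ∀ t ∈ Ico 0 T, ∀ x, ∑ i, pd i (fun y => v t y i) x = 0
  momentum : ∀ t ∈ Ioo 0 T, ∀ x i,
    deriv (fun s => v s x i) t + PN n (fun y => ∑ j, v t y j * pd j (fun z => v t z i) y) x
      = - pd i (q t) x

end Pool.Agent.U571.EG
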