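import Pool.Agent.U571.EG.GFour

/-!
Evolution of the Fourier-Galerkin truncations.
-/

set_option autoImplicit false

open MeasureTheory Set Filter Topology
open scoped ContDiff ENNReal

namespace Pool.Agent.U571.EG

open H459R3.NS H459R3.EU Pool.Agent.TH340.PS

section gen

variable {T : ℝ}

theorem hasDerivAt_dt {f : ℝ → V → ℝ}
    (hf : ContDiffOn ℝ ∞ (fun z : ℝ × V => f z.1 z.2) (Ico 0 T ×ˢ univ)) {t : ℝ}
    (ht : t ∈ Ioo 0 T) (x : V) : HasDerivAt (fun s => f s x) (H459R3.NS.dt f t x) t := by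
  have := hasDerivAt_slice (F := f) (mono_Ioo hf (by norm_cast)) ht x
  rwa [← H459R3.NS.dt_eq hf ht x] at this

/-- derivative of the integral of the square -/
theorem sq_hasDerivAt {f : ℝ → V → ℝ}
    (hf : ContDiffOn ℝ ∞ (fun z : ℝ × V => f z.1 z.2) (Ico 0 T ×ˢ univ)) {t : ℝ}
    (ht : t ∈ Ioo 0 T) :
    HasDerivAt (fun s => ∫ x in cube, f s x ^ 2) (2 * ∫ x in cube, f t x * H459R3.NS.dt f t x) t := by
  have hF : ContDiffOn ℝ 1 (fun z : ℝ × V => f z.1 z.2 ^ 2) (Ioo 0 T ×ˢ univ) :=
    (mono_Ioo hf (by norm_cast)).pow 2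
  have key := hasDerivAt_int (F := fun s x => f s x ^ 2) hF ht
  refine key.congr_deriv ?_
  rw [← integral_const_mul]
  congr 1
  funext x
  have h3 : HasDerivAt (fun s => f s x ^ 2) _ t := (hasDerivAt_dt hf ht x).pow 2
  rw [h3.deriv]
  push_cast
  ring

end gen

section gal

variable {n : ℕ} {T : ℝ} {v : ℝ → V → V} {q : ℝ → V → ℝ}

theorem IsGal.smooth_c (h : IsGal n T v q) (i : Fin 3) :
    ContDiffOn ℝ ∞ (fun z : ℝ × V => v z.1 z.2 i) (Ico 0 T ×ˢ univ) :=
  (contDiffOn_pi.1 h.smooth_v) i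

theorem IsGal.band (h : IsGal n T v q) {t : ℝ} (ht : t ∈ Ico 0 T) (i : Fin 3) :
    Band n (fun y => v t y i) := band_of_eq fun x => h.band_v t ht x i

theorem IsGal.bandq (h : IsGal n T v q) {t : ℝ} (ht : t ∈ Ico 0 T) :
    Band n (q t) := band_of_eq (h.band_q t ht)

theorem IsGal.dt_eq (h : IsGal n T v q) {t : ℝ} (ht : t ∈ Ioo 0 T) (i : Fin 3) (x : V) :
    H459R3.NS.dt (fun s y => v s y i) t x
      = (-1) * PN n (conv (fun i y => v t y i) i) x - pd i (q t) x := by
  have h1 := h.momentum t ht x i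
  have e : PN n (fun y => ∑ j, v t y j * pd j (fun z => v t z i) y) x
      = PN n (conv (fun i y => v t y i) i) x := rfl
  rw [e] at h1
  unfold H459R3.NS.dt
  linarith

/-- the equation tested with a truncated field of divergence zero -/
theorem IsGal.test (h : IsGal n T v q) {t : ℝ} (ht : t ∈ Ioo 0 T) {φ : Fin 3 → V → ℝ}
    (hφ : ∀ i, Band n (φ i)) (hdφ : ∀ x, ∑ i, pd i (φ i) x = 0) :
    ∑ i, ∫ x in cube, φ i x * H459R3.NS.dt (fun s y => v s y i) t x
      = -∑ i, ∫ x in cube, φ i x * conv (fun i y => v t y i) i x := by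
  have hI : t ∈ Ico 0 T := ⟨ht.1.le, ht.2⟩
  set A : Fin 3 → V → ℝ := fun i y => v t y i with hA
  have hAs : ∀ i, SP (A i) := fun i => (h.band hI i).sp
  have hcs : ∀ i, SP (conv A i) := sp_conv hAs
  have e1 : ∀ i, ∫ x in cube, φ i x * H459R3.NS.dt (fun s y => v s y i) t x
      = -(∫ x in cube, φ i x * conv A i x)
        + (∫ x in cube, (conv A i x - PN n (conv A i) x) * φ i x)
        - ∫ x in cube, φ i x * pd i (q t) x := by
    intro i
    have e : ∀ x, φ i x * H459R3.NS.dt (fun s y => v s y i) t x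
        = -(φ i x * conv A i x) + (conv A i x - PN n (conv A i) x) * φ i x
          - φ i x * pd i (q t) x := by
      intro x
      rw [h.dt_eq ht]
      ring
    simp_rw [e]
    have i1 : IntegrableOn (fun x => -(φ i x * conv A i x)) cube :=
      ((hφ i).sp.mul (hcs i)).int.neg
    have i2 : IntegrableOn (fun x => (conv A i x - PN n (conv A i) x) * φ i x) cube :=
      (((hcs i).sub (sp_PN n _)).mul (hφ i).sp).int
    have i3 : IntegrableOn (fun x => φ i x * pd i (q t) x) cube :=
      ((hφ i).sp.mul ((h.bandq hI).sp.pd i)).int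
    have i12 : IntegrableOn (fun x => -(φ i x * conv A i x)
        + (conv A i x - PN n (conv A i) x) * φ i x) cube := i1.add i2
    rw [integral_sub i12 i3, integral_add i1 i2, integral_neg]
  simp_rw [e1]
  have e2 : ∀ i, ∫ x in cube, (conv A i x - PN n (conv A i) x) * φ i x = 0 :=
    fun i => orth (coBand_rest (hcs i)) (hφ i)
  simp_rw [e2, add_zero]
  rw [Finset.sum_sub_distrib, int_press (fun i => (hφ i).sp) hdφ (h.bandq hI).sp, sub_zero,
    Finset.sum_neg_distrib]

theorem IsGal.energy_eq (h : IsGal n T v q) {t : ℝ} (ht : t ∈ Ico 0 T) :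
    energy (v t) ≤ energy (v 0) := by
  have key := gron (y := fun s => energy (v s)) (D := fun _ => 0)
    (g := fun _ => 0) (B := 0) ht.1 (fun s => energy_nn _)
    (by
      unfold energy
      refine continuousOn_finsetSum _ fun i _ => ?_
      exact (continuousOn_int (F := fun s x => v s x i ^ 2)
        ((h.smooth_c i).continuousOn.pow 2)).mono fun s hs => ⟨hs.1, hs.2.trans_lt ht.2⟩)
    (fun s hs => by
      have hs' : s ∈ Ioo 0 T := ⟨hs.1, hs.2.trans ht.2⟩
      have hI : s ∈ Ico 0 T := ⟨hs'.1.le, hs'.2⟩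
      have h2 : HasDerivAt (fun s => energy (v s))
          (∑ i, 2 * ∫ x in cube, v s x i * H459R3.NS.dt (fun s y => v s y i) s x) s :=
        HasDerivAt.fun_sum fun i _ => sq_hasDerivAt (f := fun s y => v s y i) (h.smooth_c i) hs'
      refine h2.congr_deriv ?_
      have h3 := h.test hs' (φ := fun i y => v s y i) (fun i => h.band hI i) (h.divfree s hI)
      have h4 := int_conv (v := fun i y => v s y i) (fun i => (h.band hI i).sp) (h.divfree s hI)
      rw [h4, neg_zero] at h3
      rw [← Finset.mul_sum, h3, mul_zero]) (fun _ _ => le_rfl)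
    integrableOn_zero (by simp) (fun s hs => by simp)
  simpa using key

/-- third derivatives -/
theorem IsGal.dsq_hasDerivAt (h : IsGal n T v q) {t : ℝ} (ht : t ∈ Ioo 0 T) :
    HasDerivAt (fun s => dsq (v s))
      (-(2 * Q3 (cv (fun i y => v t y i) (fun i y => v t y i)) (fun i y => v t y i))) t := by
  have hI : t ∈ Ico 0 T := ⟨ht.1.le, ht.2⟩
  set A : Fin 3 → V → ℝ := fun i y => v t y i with hA
  have hAb : ∀ i, Band n (A i) := fun i => h.band hI i
  have hAs : ∀ i, SP (A i) := fun i => (hAb i).sp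
  have hdiv : ∀ x, ∑ i, pd i (A i) x = 0 := h.divfree t hI
  set w : Fin 3 → V → ℝ := fun i => H459R3.NS.dt (fun s y => v s y i) t with hw
  have h1 : ∀ l i j k, HasDerivAt (fun s => ∫ x in cube, d3 i j k (fun y => v s y l) x ^ 2)
      (2 * ∫ x in cube, d3 i j k (w l) x * d3 i j k (A l) x) t := by
    intro l i j k
    have hG := contDiffOn_d3 (f := fun s y => v s y l) (h.smooth_c l) i j k
    have h2 := sq_hasDerivAt (f := fun s => d3 i j k (fun y => v s y l)) hG ht
    refine h2.congr_deriv ?_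
    congr 2
    funext x
    have h4 := dt_d3 (f := fun s y => v s y l) (h.smooth_c l) ht i j k x
    rw [h4, mul_comm]
  have h2 : HasDerivAt (fun s => dsq (v s))
      (∑ l, ∑ i, ∑ j, ∑ k, 2 * ∫ x in cube, d3 i j k (w l) x * d3 i j k (A l) x) t :=
    HasDerivAt.fun_sum fun l _ => HasDerivAt.fun_sum fun i _ => HasDerivAt.fun_sum fun j _ =>
      HasDerivAt.fun_sum fun k _ => h1 l i j k
  refine h2.congr_deriv ?_
  have e0 : ∑ l, ∑ i, ∑ j, ∑ k, 2 * ∫ x in cube, d3 i j k (w l) x * d3 i j k (A l) x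
      = 2 * Q3 w A := by
    unfold Q3
    simp_rw [Finset.mul_sum]
  rw [e0]
  have e1 : w = fun l x => ((-1) * cv A A l x + (cv A A l x - PN n (cv A A l) x))
      + (-1) * pd l (q t) x := by
    funext l x
    have := h.dt_eq ht l x
    simp only [hw]
    rw [this]
    have e : PN n (conv (fun i y => v t y i) l) x = PN n (cv A A l) x := rfl
    rw [e]
    ring
  have hcs : ∀ l, SP (cv A A l) := fun l => sp_cv hAs hAs l
  have s1 : ∀ l, SP (fun x => (-1) * cv A A l x) := fun l => sp_smul (hcs l) _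
  have s2 : ∀ l, SP (fun x => cv A A l x - PN n (cv A A l) x) := fun l => (hcs l).sub (sp_PN n _)
  have s3 : ∀ l, SP (fun x => (-1) * pd l (q t) x) := fun l => sp_smul ((h.bandq hI).sp.pd l) _
  have e2 : Q3 (fun l x => cv A A l x - PN n (cv A A l) x) A = 0 := by
    unfold Q3
    refine Finset.sum_eq_zero fun l _ => Finset.sum_eq_zero fun i _ =>
      Finset.sum_eq_zero fun j _ => Finset.sum_eq_zero fun k _ => ?_
    exact orth ((((coBand_rest (hcs l)).pd k).pd j).pd i) ((((hAb l).pd k).pd j).pd i)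
  rw [e1, Q3_add_left (fun l => (s1 l).add (s2 l)) s3 hAs, Q3_add_left s1 s2 hAs,
    Q3_smul_left (F := fun l => cv A A l) (fun l => hcs l),
    Q3_smul_left (F := fun l => pd l (q t)) (fun l => (h.bandq hI).sp.pd l),
    Q3_press hAs hdiv (h.bandq hI).sp, e2]
  ring

theorem IsGal.dsq_continuousOn (h : IsGal n T v q) :
    ContinuousOn (fun s => dsq (v s)) (Ico 0 T) := by
  unfold dsq
  refine continuousOn_finsetSum _ fun l _ => continuousOn_finsetSum _ fun i _ =>
    continuousOn_finsetSum _ fun j _ => continuousOn_finsetSum _ fun k _ => ?_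
  exact continuousOn_int (F := fun s x => d3 i j k (fun y => v s y l) x ^ 2)
    ((contDiffOn_d3 (f := fun s y => v s y l) (h.smooth_c l) i j k).continuousOn.pow 2)

theorem IsGal.dsq_growth (h : IsGal n T v q)
    {t : ℝ} (ht : t ∈ Ico 0 T) {s : ℝ → ℝ} (hs : IntegrableOn s (Icc 0 t))
    (hb : ∀ τ ∈ Ioo 0 t, ∀ i j x, |str (fun k y => v τ y k) i j x| ≤ s τ) :
    dsq (v t) ≤ dsq (v 0) * Real.exp (41310 * ∫ τ in (0 : ℝ)..t, s τ) := by
  have hs0 : ∀ τ ∈ Ioo 0 t, 0 ≤ s τ := fun τ hτ => (abs_nonneg _).trans (hb τ hτ 0 0 0)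
  refine gron (g := fun τ => 41310 * s τ) ht.1 (fun τ => dsq_nonneg (v τ))
    (h.dsq_continuousOn.mono fun τ hτ => ⟨hτ.1, hτ.2.trans_lt ht.2⟩)
    (fun τ hτ => h.dsq_hasDerivAt ⟨hτ.1, hτ.2.trans ht.2⟩)
    (fun τ hτ => mul_nonneg (by norm_num) (hs0 τ hτ)) (hs.const_mul _)
    (le_of_eq (by rw [intervalIntegral.integral_const_mul])) fun τ hτ => ?_
  have hI : τ ∈ Ico 0 T := ⟨hτ.1.le, hτ.2.trans ht.2⟩
  have hB : BS (fun k y => v τ y k) (s τ) (Real.sqrt (dsq (v τ))) :=
    ⟨fun i => (h.band hI i).sp, hb τ hτ, fun l i j k => nrm_le_third (v τ) l i j k⟩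
  have k1 := Q3_le hB (h.divfree τ hI)
  rw [Real.sq_sqrt (dsq_nonneg _)] at k1
  have k2 := (abs_le.1 k1).1
  linarith

end gal

/-- the convection term tested with a field -/
theorem conv_rest {v : Fin 3 → V → ℝ} (hv : ∀ i, SP (v i)) (hdiv : ∀ x, ∑ i, pd i (v i) x = 0)
    {r : Fin 3 → V → ℝ} (hr : ∀ i, SP (r i)) :
    ∑ i, ∫ x in cube, r i x * conv v i x
      = -∑ i, ∑ j, ∫ x in cube, v i x * v j x * pd j (r i) x := by
  rw [← Finset.sum_neg_distrib]
  refine Finset.sum_congr rfl fun i _ => ?_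
  have h1 := int_press hv hdiv ((hr i).mul (hv i))
  have e1 : ∀ j, ∫ x in cube, v j x * pd j (fun y => r i y * v i y) x
      = (∫ x in cube, r i x * (v j x * pd j (v i) x)) + ∫ x in cube, v i x * v j x * pd j (r i) x := by
    intro j
    rw [← integral_add]
    · congr 1
      funext x
      rw [pd_mul (hr i) (hv i)]
      ring
    · exact ((hr i).mul ((hv j).mul ((hv i).pd j))).int
    · exact (((hv i).mul (hv j)).mul ((hr i).pd j)).int
  simp_rw [e1, Finset.sum_add_distrib] at h1
  have e2 : ∫ x in cube, r i x * conv v i x = ∑ j, ∫ x in cube, r i x * (v j x * pd j (v i) x) := by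
    have e : ∀ x, r i x * conv v i x = ∑ j, r i x * (v j x * pd j (v i) x) := fun x => by
      unfold conv
      rw [Finset.mul_sum]
    simp_rw [e]
    exact integral_finsetSum _ fun j _ => ((hr i).mul ((hv j).mul ((hv i).pd j))).int
  rw [e2]
  linarith

/-- relative energy of an Euler solution and a Galerkin truncation -/
theorem gal_hasDerivAt {n : ℕ} {T : ℝ} {u v : ℝ → V → V} {p q : ℝ → V → ℝ} (hu : IsSol 0 T u p)
    (hv : IsGal n T v q) {t : ℝ} (ht : t ∈ Ioo 0 T) :
    HasDerivAt (fun s => energy (fun y => u s y - v s y))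
      (2 * (-(∑ i, ∑ j, ∫ x in cube, (u t x i - v t x i) * (u t x j - v t x j)
          * str (fun i y => v t y i) i j x)
        + ∑ i, ∑ j, ∫ x in cube, v t x i * v t x j
          * pd j (fun y => u t y i - PN n (fun y => u t y i) y) x)) t := by
  have hI : t ∈ Ico 0 T := ⟨ht.1.le, ht.2⟩
  set A : Fin 3 → V → ℝ := fun i y => u t y i with hA
  set B : Fin 3 → V → ℝ := fun i y => v t y i with hB
  set w : Fin 3 → V → ℝ := fun i y => A i y - B i y with hw
  set r : Fin 3 → V → ℝ := fun i y => A i y - PN n (A i) y with hr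
  have hAs : ∀ i, SP (A i) := fun i => hu.sp hI i
  have hBb : ∀ i, Band n (B i) := fun i => hv.band hI i
  have hBs : ∀ i, SP (B i) := fun i => (hBb i).sp
  have hws : ∀ i, SP (w i) := fun i => (hAs i).sub (hBs i)
  have hrs : ∀ i, SP (r i) := fun i => (hAs i).sub (sp_PN n _)
  have hdA : ∀ x, ∑ i, pd i (A i) x = 0 := hu.divfree t hI
  have hdB : ∀ x, ∑ i, pd i (B i) x = 0 := hv.divfree t hI
  have hdw : ∀ x, ∑ i, pd i (w i) x = 0 := by
    intro x
    have e : ∀ i, pd i (w i) x = pd i (A i) x - pd i (B i) x :=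
      fun i => congrFun (pd_sub (hAs i) (hBs i) i) x
    simp_rw [e]
    rw [Finset.sum_sub_distrib, hdA, hdB, sub_zero]
  have h1 : ∀ i, HasDerivAt (fun s => ∫ x in cube, (u s x i - v s x i) ^ 2)
      (2 * ∫ x in cube, w i x * (H459R3.NS.dt (fun s y => u s y i) t x
        - H459R3.NS.dt (fun s y => v s y i) t x)) t := by
    intro i
    have h2 := sq_hasDerivAt (f := fun s y => u s y i - v s y i)
      ((hu.smooth_c i).sub (hv.smooth_c i)) ht
    refine h2.congr_deriv ?_
    congr 2
    funext x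
    have h3 := (hasDerivAt_dt (f := fun s y => u s y i) (hu.smooth_c i) ht x).sub
      (hasDerivAt_dt (f := fun s y => v s y i) (hv.smooth_c i) ht x)
    have h4 : H459R3.NS.dt (fun s y => u s y i - v s y i) t x = _ := h3.deriv
    rw [h4]
  have h2 : HasDerivAt (fun s => energy (fun y => u s y - v s y))
      (∑ i, 2 * ∫ x in cube, w i x * (H459R3.NS.dt (fun s y => u s y i) t x
        - H459R3.NS.dt (fun s y => v s y i) t x)) t :=
    HasDerivAt.fun_sum fun i _ => h1 i
  refine h2.congr_deriv ?_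
  rw [← Finset.mul_sum]
  congr 1
  set P : V → ℝ := fun x => p t x - q t x with hP
  have hPs : SP P := (hu.sp_p hI).sub (hv.bandq hI).sp
  have hcs : ∀ i, SP (conv B i) := sp_conv hBs
  have hcr : ∀ i, CoBand n (fun x => conv B i x - PN n (conv B i) x) := fun i => coBand_rest (hcs i)
  have e1 : ∀ i, ∫ x in cube, w i x * (H459R3.NS.dt (fun s y => u s y i) t x
        - H459R3.NS.dt (fun s y => v s y i) t x)
      = (-(∫ x in cube, (A i x - B i x) * (conv A i x - conv B i x))
        - (∫ x in cube, r i x * conv B i x))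
        + (∫ x in cube, r i x * PN n (conv B i) x)
        - (∫ x in cube, (conv B i x - PN n (conv B i) x) * (PN n (A i) x - B i x))
        - ∫ x in cube, w i x * pd i P x := by
    intro i
    have e : ∀ x, w i x * (H459R3.NS.dt (fun s y => u s y i) t x
          - H459R3.NS.dt (fun s y => v s y i) t x)
        = (-((A i x - B i x) * (conv A i x - conv B i x)) - r i x * conv B i x)
          + r i x * PN n (conv B i) x
          - (conv B i x - PN n (conv B i) x) * (PN n (A i) x - B i x) - w i x * pd i P x := by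
      intro x
      have a1 : pd i P x = pd i (p t) x - pd i (q t) x :=
        congrFun (pd_sub (hu.sp_p hI) (hv.bandq hI).sp i) x
      rw [hu.dt_eq ht, hv.dt_eq ht, a1]
      simp only [hw, hr]
      ring
    simp_rw [e]
    have i1 : IntegrableOn (fun x => -((A i x - B i x) * (conv A i x - conv B i x))) cube :=
      ((hws i).mul ((sp_conv hAs i).sub (hcs i))).int.neg
    have i2 : IntegrableOn (fun x => r i x * conv B i x) cube := ((hrs i).mul (hcs i)).int
    have i3 : IntegrableOn (fun x => r i x * PN n (conv B i) x) cube :=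
      ((hrs i).mul (sp_PN n _)).int
    have i4 : IntegrableOn (fun x => (conv B i x - PN n (conv B i) x) * (PN n (A i) x - B i x))
        cube := ((hcr i).sp.mul ((sp_PN n _).sub (hBs i))).int
    have i5 : IntegrableOn (fun x => w i x * pd i P x) cube := ((hws i).mul (hPs.pd i)).int
    have i12 : IntegrableOn (fun x => -((A i x - B i x) * (conv A i x - conv B i x))
      - r i x * conv B i x) cube := i1.sub i2
    have i123 : IntegrableOn (fun x => -((A i x - B i x) * (conv A i x - conv B i x))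
      - r i x * conv B i x + r i x * PN n (conv B i) x) cube := i12.add i3
    have i1234 : IntegrableOn (fun x => -((A i x - B i x) * (conv A i x - conv B i x))
      - r i x * conv B i x + r i x * PN n (conv B i) x
      - (conv B i x - PN n (conv B i) x) * (PN n (A i) x - B i x)) cube := i123.sub i4
    rw [integral_sub i1234 i5, integral_sub i123 i4, integral_add i12 i3, integral_sub i1 i2,
      integral_neg]
  simp_rw [e1]
  have z1 : ∀ i, ∫ x in cube, r i x * PN n (conv B i) x = 0 :=
    fun i => orth (coBand_rest (hAs i)) (band_PN n _)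
  have z2 : ∀ i, ∫ x in cube, (conv B i x - PN n (conv B i) x) * (PN n (A i) x - B i x) = 0 :=
    fun i => orth (hcr i) ((band_PN n _).sub (hBb i))
  simp_rw [z1, z2, add_zero, sub_zero]
  rw [Finset.sum_sub_distrib, int_press hws hdw hPs, sub_zero, Finset.sum_sub_distrib,
    Finset.sum_neg_distrib, conv_diff hAs hBs hdA, conv_rest hBs hdB hrs]
  ring

end Pool.Agent.U571.EG
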