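import Pool.Agent.U571.EG.GEvo

/-!
Euler solutions and Fourier-Galerkin truncations: the estimates.
-/

set_option autoImplicit false

open MeasureTheory Set Filter Topology
open scoped ContDiff ENNReal

namespace Pool.Agent.U571.EG

open H459R3.NS H459R3.EU Pool.Agent.TH340.PS

/-- `g` has the Fourier coefficients of `h` in the box and `0` outside -/
structure Trunc (n : ℕ) (g h : V → ℝ) : Prop where
  sg : SP g
  sh : SP h
  fr : ∀ k, fr g k = if k ∈ boxF n then fr h k else 0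

theorem Trunc.pd {n : ℕ} {g h : V → ℝ} (t : Trunc n g h) (j : Fin 3) :
    Trunc n (pd j g) (pd j h) :=
  ⟨t.sg.pd j, t.sh.pd j, fun k => by
    rw [fr_pd t.sg, fr_pd t.sh, D, D, t.fr k]
    split_ifs <;> simp⟩

theorem Trunc.le {n : ℕ} {g h : V → ℝ} (t : Trunc n g h) :
    ∫ x in cube, g x ^ 2 ≤ ∫ x in cube, h x ^ 2 := by
  rw [← n2_fr t.sg, ← n2_fr t.sh, n2_sq, n2_sq]
  have s1 := summable_sq (rap_fr t.sg).summable
  have s2 := summable_sq (rap_fr t.sh).summable
  refine s1.tsum_le_tsum (fun k => ?_) s2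
  rw [t.fr k]
  split_ifs
  · exact le_rfl
  · rw [norm_zero, zero_pow (by norm_num)]
    positivity

theorem trunc_PN {n : ℕ} {f : V → ℝ} (hf : SP f) : Trunc n (PN n f) f :=
  ⟨sp_PN n f, hf, fun k => fr_PN n f k⟩

theorem trunc_le {n : ℕ} {a b : V → V} (ha : ∀ i, SP (fun y => a y i))
    (h : ∀ x i, b x i = PN n (fun y => a y i) x) : energy b ≤ energy a ∧ dsq b ≤ dsq a := by
  have e : ∀ i, (fun y => b y i) = PN n (fun y => a y i) := fun i => funext fun x => h x i
  have ht : ∀ i, Trunc n (fun y => b y i) (fun y => a y i) := fun i => by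
    rw [e i]
    exact trunc_PN (ha i)
  constructor
  · unfold energy
    exact Finset.sum_le_sum fun i _ => (ht i).le
  · unfold dsq
    exact Finset.sum_le_sum fun l _ => Finset.sum_le_sum fun i _ => Finset.sum_le_sum fun j _ =>
      Finset.sum_le_sum fun k _ => ((((ht l).pd k).pd j).pd i).le

theorem nrm_lap_pd {v : V → V} (hv : ∀ i, SP (fun y => v y i)) (l j : Fin 3) :
    nrm (lap (pd j (fun y => v y l))) ≤ 3 * Real.sqrt (dsq v) := by
  have h := nrm_sum_le (f := fun k => pd k (pd k (pd j (fun y => v y l))))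
    fun k => ((((hv l).pd j).pd k).pd k).cont
  refine h.trans ?_
  refine (Finset.sum_le_sum fun k _ => nrm_le_third v l k k j).trans ?_
  simp

/-- the gradient of the part of high frequency -/
theorem rest_grad {n : ℕ} (hn : 1 ≤ n) {v : V → V} (hv : ∀ i, SP (fun y => v y i)) (i j : Fin 3)
    (x : V) : |pd j (fun y => v y i - PN n (fun y => v y i) y) x|
      ≤ 3 * Real.sqrt C7 * (n : ℝ) ^ (-(1 / 4) : ℝ) * Real.sqrt (dsq v) := by
  have hr : SP (fun y => v y i - PN n (fun y => v y i) y) := (hv i).sub (sp_PN n _)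
  have h1 := tail_sup hn (hr.pd j) ((hv i).pd j) (fun k => by
    rw [fr_pd hr, fr_pd (hv i), D, D, fr_rest (hv i)]
    split_ifs <;> simp) x
  refine h1.trans ?_
  have h2 := nrm_lap_pd hv i j
  calc _ ≤ Real.sqrt C7 * (n : ℝ) ^ (-(1 / 4) : ℝ) * (3 * Real.sqrt (dsq v)) :=
        mul_le_mul_of_nonneg_left h2 (by positivity)
    _ = _ := by ring

/-- second derivatives -/
theorem lap_sq_le {v : V → V} (hv : ∀ i, SP (fun y => v y i)) :
    ∑ l, nrm (lap (fun y => v y l)) ^ 2 ≤ 2 * (energy v + dsq v) := by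
  have hen := enstrophy_le hv
  have key : ∀ l, nrm (lap (fun y => v y l)) ^ 2
      ≤ 3 / 2 * (∑ i, ∑ j, ∑ k, ∫ x in cube, d3 i j k (fun y => v y l) x ^ 2)
        + 1 / 2 * ∑ j, ∫ x in cube, pd j (fun y => v y l) x ^ 2 := by
    intro l
    set f : V → ℝ := fun y => v y l with hf
    have sf : SP f := hv l
    have h2 : nrm (lap f) ^ 2 ≤ ∑ j, nrm (pd j (lap f)) * nrm (pd j f) := by
      rw [nrm_sq]
      have e : ∫ x in cube, lap f x ^ 2 = -∑ j, ∫ x in cube, pd j f x * pd j (lap f) x := by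
        rw [← int_lap_mul sf sf.lap]
        simp_rw [sq]
      rw [e, ← Finset.sum_neg_distrib]
      refine Finset.sum_le_sum fun j _ => ?_
      have := abs_int_mul_le (sf.pd j).cont (sf.lap.pd j).cont
      rw [mul_comm]
      exact (neg_le_abs _).trans this
    have h3 : ∀ j, nrm (pd j (lap f)) ^ 2 ≤ 3 * ∑ k, ∫ x in cube, d3 j k k f x ^ 2 := by
      intro j
      have e : ∀ x, pd j (lap f) x = ∑ k, d3 j k k f x := fun x => by
        unfold lap d3
        exact pd_sum (fun k _ => (sf.pd k).pd k) j x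
      rw [nrm_sq]
      have hs : ∀ k, SP (d3 j k k f) := fun k => ((sf.pd k).pd k).pd j
      have hk : ∀ k ∈ (Finset.univ : Finset (Fin 3)),
          Integrable (fun x => d3 j k k f x ^ 2) (volume.restrict cube) :=
        fun k _ => integrableOn_cube ((hs k).cont.pow 2)
      rw [← integral_finsetSum _ hk, ← integral_const_mul]
      refine integral_mono (integrableOn_cube ((sf.lap.pd j).cont.pow 2)) ?_ fun x => ?_
      · refine (integrableOn_cube ?_)
        exact continuous_const.mul (continuous_finsetSum _ fun k _ => (hs k).cont.pow 2)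
      · simp only
        rw [e x, Fin.sum_univ_three, Fin.sum_univ_three]
        nlinarith [sq_nonneg (d3 j 0 0 f x - d3 j 1 1 f x), sq_nonneg (d3 j 0 0 f x - d3 j 2 2 f x),
          sq_nonneg (d3 j 1 1 f x - d3 j 2 2 f x)]
    have h4 : ∑ j, ∑ k, ∫ x in cube, d3 j k k f x ^ 2
        ≤ ∑ i, ∑ j, ∑ k, ∫ x in cube, d3 i j k f x ^ 2 := by
      refine Finset.sum_le_sum fun i _ => Finset.sum_le_sum fun j _ => ?_
      exact Finset.single_le_sum (f := fun k => ∫ x in cube, d3 i j k f x ^ 2)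
        (fun _ _ => integral_nonneg fun _ => sq_nonneg _) (Finset.mem_univ j)
    have h5 : ∑ j, ∫ x in cube, pd j f x ^ 2 = ∑ j, nrm (pd j f) ^ 2 :=
      Finset.sum_congr rfl fun j _ => (nrm_sq _).symm
    have h7 : ∑ j, nrm (pd j (lap f)) ^ 2 ≤ 3 * ∑ j, ∑ k, ∫ x in cube, d3 j k k f x ^ 2 := by
      refine (Finset.sum_le_sum fun j _ => h3 j).trans ?_
      rw [← Finset.mul_sum]
    have h8 : ∑ j, nrm (pd j (lap f)) * nrm (pd j f)
        ≤ 1 / 2 * ∑ j, nrm (pd j (lap f)) ^ 2 + 1 / 2 * ∑ j, nrm (pd j f) ^ 2 := by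
      rw [Finset.mul_sum, Finset.mul_sum, ← Finset.sum_add_distrib]
      refine Finset.sum_le_sum fun j _ => ?_
      nlinarith [sq_nonneg (nrm (pd j (lap f)) - nrm (pd j f))]
    rw [h5]
    linarith
  have h1 : ∑ l, nrm (lap (fun y => v y l)) ^ 2 ≤ 3 / 2 * dsq v + 1 / 2 * enstrophy v := by
    refine (Finset.sum_le_sum fun l _ => key l).trans ?_
    rw [Finset.sum_add_distrib, ← Finset.mul_sum, ← Finset.mul_sum]
    rfl
  have h2 := energy_nn v
  linarith

/-- the initial distance -/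
theorem init_dist {n : ℕ} (hn : 1 ≤ n) {a b : V → V} (ha : ∀ i, SP (fun y => a y i))
    (h : ∀ x i, b x i = PN n (fun y => a y i) x) :
    energy (fun y => a y - b y) ≤ (n : ℝ) ^ (-4 : ℤ) * (2 * (energy a + dsq a)) := by
  have h1 := lap_sq_le ha
  have e : energy (fun y => a y - b y)
      = ∑ i, nrm (fun x => a x i - PN n (fun y => a y i) x) ^ 2 := by
    unfold energy
    refine Finset.sum_congr rfl fun i _ => ?_
    rw [nrm_sq]
    congr 1
    funext x
    simp only [Pi.sub_apply]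
    rw [h x i]
  rw [e]
  refine (Finset.sum_le_sum fun i _ => tail_nrm hn (ha i)).trans ?_
  rw [← Finset.mul_sum]
  exact mul_le_mul_of_nonneg_left h1 (by positivity)

/-- only the strain of one of the two fields matters -/
theorem quad_swap {a b : Fin 3 → V → ℝ} (ha : ∀ i, SP (a i)) (hb : ∀ i, SP (b i))
    (hda : ∀ x, ∑ i, pd i (a i) x = 0) (hdb : ∀ x, ∑ i, pd i (b i) x = 0) :
    ∑ i, ∑ j, ∫ x in cube, (a i x - b i x) * (a j x - b j x) * str b i j x
      = ∑ i, ∑ j, ∫ x in cube, (a i x - b i x) * (a j x - b j x) * str a i j x := by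
  have h1 := conv_diff ha hb hda
  have h2 := conv_diff hb ha hdb
  have e1 : ∑ i, ∫ x in cube, (b i x - a i x) * (conv b i x - conv a i x)
      = ∑ i, ∫ x in cube, (a i x - b i x) * (conv a i x - conv b i x) := by
    refine Finset.sum_congr rfl fun i _ => ?_
    congr 1
    funext x
    ring
  have e2 : ∑ i, ∑ j, ∫ x in cube, (b i x - a i x) * (b j x - a j x) * str a i j x
      = ∑ i, ∑ j, ∫ x in cube, (a i x - b i x) * (a j x - b j x) * str a i j x := by
    refine Finset.sum_congr rfl fun i _ => Finset.sum_congr rfl fun j _ => ?_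
    congr 1
    funext x
    ring
  rw [← h1, ← e1, h2, e2]

/-- the distance in `L²` -/
theorem near_gal {n : ℕ} {T K E s₀ δ₀ : ℝ} {u v : ℝ → V → V} {p q : ℝ → V → ℝ} {β : ℝ → ℝ}
    (hu : IsSol 0 T u p) (hv : IsGal n T v q)
    (hβ : IntegrableOn β (Ioo 0 T)) (hβ0 : ∀ t ∈ Ioo 0 T, 0 ≤ β t)
    (hK : ∫ t in Ioo 0 T, β t ≤ K) (hE : energy (v 0) ≤ E) (hs₀ : 0 ≤ s₀)
    (h0 : energy (fun y => u 0 y - v 0 y) ≤ δ₀) {t : ℝ} (ht : t ∈ Ico 0 T)
    (hquad : ∀ s ∈ Ioo 0 t, |∑ i, ∑ j, ∫ x in cube, (u s x i - v s x i) * (u s x j - v s x j)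
      * str (fun i y => v s y i) i j x| ≤ 3 * β s * energy (fun y => u s y - v s y))
    (hs : ∀ s ∈ Ioo 0 t, ∀ i j x,
      |pd j (fun y => u s y i - PN n (fun y => u s y i) y) x| ≤ s₀) :
    energy (fun y => u t y - v t y) ≤ (δ₀ + 6 * s₀ * E * T) * Real.exp (6 * K + 1) := by
  have hT : 0 < T := ht.1.trans_lt ht.2
  have hE0 : 0 ≤ E := (energy_nn _).trans hE
  set η : ℝ := 6 * s₀ * E * T with hη
  have hη0 : 0 ≤ η := by positivity
  have hcont : ContinuousOn (fun s => energy (fun y => u s y - v s y)) (Ico 0 T) := by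
    unfold energy
    refine continuousOn_finsetSum _ fun i _ => ?_
    exact continuousOn_int (F := fun s x => (u s x i - v s x i) ^ 2)
      (((hu.smooth_c i).continuousOn.sub (hv.smooth_c i).continuousOn).pow 2)
  have hsub : Icc 0 t ⊆ Ico 0 T := fun s hs => ⟨hs.1, hs.2.trans_lt ht.2⟩
  have hgi : IntegrableOn (fun τ => 6 * β τ + 1 / T) (Icc 0 t) := by
    rw [integrableOn_Icc_iff_integrableOn_Ioc, integrableOn_Ioc_iff_integrableOn_Ioo]
    exact ((hβ.mono_set (Ioo_subset_Ioo_right ht.2.le)).const_mul _).add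
      (integrableOn_const (measure_Ioo_lt_top.ne))
  have hgB : ∫ τ in (0 : ℝ)..t, (6 * β τ + 1 / T) ≤ 6 * K + 1 := by
    rw [intervalIntegral.integral_of_le ht.1, integral_Ioc_eq_integral_Ioo,
      integral_add ((hβ.mono_set (Ioo_subset_Ioo_right ht.2.le)).const_mul _)
        (integrableOn_const (measure_Ioo_lt_top.ne)), integral_const_mul]
    have h2 : ∫ τ in Ioo 0 t, β τ ≤ ∫ τ in Ioo 0 T, β τ :=
      setIntegral_mono_set hβ ((ae_restrict_iff' measurableSet_Ioo).2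
        (Eventually.of_forall fun s hs => hβ0 s hs)) (Ioo_subset_Ioo_right ht.2.le).eventuallyLE
    have h3 : ∫ τ in Ioo 0 t, (1 / T : ℝ) = t / T := by
      rw [setIntegral_const, smul_eq_mul, Measure.real, Real.volume_Ioo, sub_zero,
        ENNReal.toReal_ofReal ht.1]
      ring
    have h4 : t / T ≤ 1 := (div_le_one hT).2 ht.2.le
    rw [h3]
    linarith
  have key := gron (y := fun s => energy (fun y => u s y - v s y) + η)
    (g := fun τ => 6 * β τ + 1 / T) ht.1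
    (fun s => add_nonneg (energy_nn _) hη0) ((hcont.mono hsub).add continuousOn_const)
    (fun s hs => (gal_hasDerivAt hu hv ⟨hs.1, hs.2.trans ht.2⟩).add_const η)
    (fun s hs => by
      have := hβ0 s ⟨hs.1, hs.2.trans ht.2⟩
      positivity) hgi hgB (fun s hs' => by
        have hs'' : s ∈ Ioo 0 T := ⟨hs'.1, hs'.2.trans ht.2⟩
        have hI : s ∈ Ico 0 T := ⟨hs''.1.le, hs''.2⟩
        have h2 := hquad s hs'
        have h3 := (abs_le.1 h2).1
        have h4 := quad_le (w := fun i x => v s x i) (fun i => (hv.band hI i).sp)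
          (S := fun i j => pd j (fun y => u s y i - PN n (fun y => u s y i) y))
          (fun i j => ((hu.sp hI i).sub (sp_PN n _)).pd j) (hs s hs')
        have h5 := (abs_le.1 h4).2
        have e5 : ∑ i, ∫ x in cube, v s x i ^ 2 = energy (v s) := rfl
        rw [e5] at h5
        have h6 : energy (v s) ≤ E := (hv.energy_eq hI).trans hE
        have h7 : 3 * s₀ * energy (v s) ≤ 3 * s₀ * E := mul_le_mul_of_nonneg_left h6 (by positivity)
        have h8 : η * (1 / T) = 6 * s₀ * E := by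
          rw [hη]
          field_simp
        have h9 := energy_nn (fun y => u s y - v s y)
        have h10 := hβ0 s hs''
        have h11 : 0 ≤ 1 / T * energy (fun y => u s y - v s y) := by positivity
        have h12 : 0 ≤ 6 * β s * η := by positivity
        nlinarith)
  have hexp : 0 < Real.exp (6 * K + 1) := Real.exp_pos _
  have : (energy (fun y => u 0 y - v 0 y) + η) * Real.exp (6 * K + 1)
      ≤ (δ₀ + η) * Real.exp (6 * K + 1) :=
    mul_le_mul_of_nonneg_right (by linarith) hexp.le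
  linarith

/-- the size of the error -/
theorem err_le {n : ℕ} (hn : 1 ≤ n) {E D M T L : ℝ} (hE : 0 ≤ E) (hD : 0 ≤ D) (hT : 0 < T)
    (hM : 0 ≤ M) (hL : 0 ≤ L) :
    ((n : ℝ) ^ (-4 : ℤ) * (2 * (E + D))
      + 6 * (3 * Real.sqrt C7 * (n : ℝ) ^ (-(1 / 4) : ℝ) * Real.sqrt M) * E * T) * L
      ≤ (18 * Real.sqrt C7 * E + 2 * (E + D) / T) * (n : ℝ) ^ (-(1 / 4) : ℝ) * (1 + M) * T * L := by
  have hn1 : (1 : ℝ) ≤ n := by exact_mod_cast hn
  have hn0 : (0 : ℝ) < n := by linarith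
  refine mul_le_mul_of_nonneg_right ?_ hL
  have h1 : (n : ℝ) ^ (-4 : ℤ) ≤ (n : ℝ) ^ (-(1 / 4) : ℝ) := by
    rw [← Real.rpow_intCast]
    exact Real.rpow_le_rpow_of_exponent_le hn1 (by norm_num)
  have h2 : Real.sqrt M ≤ 1 + M := by
    rw [Real.sqrt_le_left (by linarith)]
    nlinarith
  set ε : ℝ := (n : ℝ) ^ (-(1 / 4) : ℝ) with hε
  have hε0 : 0 < ε := by positivity
  have k1 : (n : ℝ) ^ (-4 : ℤ) * (2 * (E + D)) ≤ ε * (2 * (E + D)) * (1 + M) := by
    have a1 : (n : ℝ) ^ (-4 : ℤ) * (2 * (E + D)) ≤ ε * (2 * (E + D)) :=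
      mul_le_mul_of_nonneg_right h1 (by positivity)
    have a2 : 0 ≤ ε * (2 * (E + D)) * M := by positivity
    linarith
  have k2 : 6 * (3 * Real.sqrt C7 * ε * Real.sqrt M) * E * T
      ≤ 18 * Real.sqrt C7 * E * ε * (1 + M) * T := by
    calc 6 * (3 * Real.sqrt C7 * ε * Real.sqrt M) * E * T
        = 18 * Real.sqrt C7 * E * ε * Real.sqrt M * T := by ring
      _ ≤ _ := by gcongr
  calc _ ≤ ε * (2 * (E + D)) * (1 + M) + 18 * Real.sqrt C7 * E * ε * (1 + M) * T :=
        add_le_add k1 k2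
    _ = _ := by
      field_simp
      ring

/-- the Euler solution is controlled by a truncation -/
theorem euler_by_gal {n : ℕ} (hn : 1 ≤ n) {T E D K : ℝ} {u v : ℝ → V → V} {p q : ℝ → V → ℝ}
    {β : ℝ → ℝ} (hT : 0 < T) (hu : IsSol 0 T u p) (hv : IsGal n T v q)
    (h0 : ∀ x i, v 0 x i = PN n (fun y => u 0 y i) x)
    (hE : energy (u 0) ≤ E) (hD : dsq (u 0) ≤ D) (hβ : IntegrableOn β (Ioo 0 T))
    (hβ0 : ∀ t ∈ Ioo 0 T, 0 ≤ β t)
    (hbs : ∀ t ∈ Ioo 0 T, ∀ x, strain2 (v t) x ≤ β t ^ 2)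
    (hK : ∫ t in Ioo 0 T, β t ≤ K)
    (hsmall : 2592 * Rx (Mx D K T) ^ 16 *
      Real.sqrt ((18 * Real.sqrt C7 * E + 2 * (E + D) / T) * (n : ℝ) ^ (-(1 / 4) : ℝ)
        * (1 + 2 * Mx D K T) * T * Real.exp (6 * K + 1)) ≤ 1 / 2) :
    ∀ t ∈ Ico 0 T, dsq (u t) ≤ Mx D K T ∧
      energy (fun y => u t y - v t y) ≤ (18 * Real.sqrt C7 * E + 2 * (E + D) / T)
        * (n : ℝ) ^ (-(1 / 4) : ℝ) * (1 + 2 * Mx D K T) * T * Real.exp (6 * K + 1) := by
  have h0T : (0 : ℝ) ∈ Ico 0 T := ⟨le_rfl, hT⟩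
  have hD0 : 0 ≤ D := (dsq_nonneg _).trans hD
  have hE0 : 0 ≤ E := (energy_nn _).trans hE
  have hM0 : 0 < Mx D K T := by unfold Mx; positivity
  have hstr : ∀ t ∈ Ioo 0 T, ∀ i j x, |str (fun k y => v t y k) i j x| ≤ β t :=
    fun t ht => str_le_of_strain2 (hβ0 t ht) (hbs t ht)
  have htr := trunc_le (fun i => hu.sp h0T i) h0
  have hδ₀ : energy (fun y => u 0 y - v 0 y) ≤ (n : ℝ) ^ (-4 : ℤ) * (2 * (E + D)) :=
    (init_dist hn (fun i => hu.sp h0T i) h0).trans
      (mul_le_mul_of_nonneg_left (by linarith) (by positivity))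
  have hnear : ∀ t ∈ Ico 0 T, (∀ s ∈ Icc 0 t, dsq (u s) ≤ 2 * Mx D K T) →
      energy (fun y => u t y - v t y) ≤ (18 * Real.sqrt C7 * E + 2 * (E + D) / T)
        * (n : ℝ) ^ (-(1 / 4) : ℝ) * (1 + 2 * Mx D K T) * T * Real.exp (6 * K + 1) := by
    intro t ht hle
    refine (near_gal hu hv hβ hβ0 hK (htr.1.trans hE) (s₀ := 3 * Real.sqrt C7
      * (n : ℝ) ^ (-(1 / 4) : ℝ) * Real.sqrt (2 * Mx D K T)) (by positivity) hδ₀ ht
      (fun s hs => ?_) (fun s hs i j x => ?_)).trans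
      (err_le hn hE0 hD0 hT (by positivity) (Real.exp_nonneg _))
    · have hs' : s ∈ Ioo 0 T := ⟨hs.1, hs.2.trans ht.2⟩
      have hI : s ∈ Ico 0 T := ⟨hs'.1.le, hs'.2⟩
      exact quad_le (w := fun i x => u s x i - v s x i)
          (fun i => (hu.sp hI i).sub (hv.band hI i).sp) (S := str (fun k y => v s y k))
          (sp_str fun i => (hv.band hI i).sp) (hstr s hs')
    · have hI : s ∈ Ico 0 T := ⟨hs.1.le, hs.2.trans ht.2⟩
      refine (rest_grad hn (fun i => hu.sp hI i) i j x).trans ?_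
      exact mul_le_mul_of_nonneg_left (Real.sqrt_le_sqrt (hle s ⟨hs.1.le, hs.2.le⟩))
        (by positivity)
  have hρ : 0 ≤ (18 * Real.sqrt C7 * E + 2 * (E + D) / T)
        * (n : ℝ) ^ (-(1 / 4) : ℝ) * (1 + 2 * Mx D K T) * T * Real.exp (6 * K + 1) := by
    positivity
  have key := shadow (a := u) (b := v) (fun t ht i => hu.sp ht i) (fun t ht i => (hv.band ht i).sp)
    (dsq_continuousOn hu) (fun t ht s hs hb => dsq_growth le_rfl hu ht hs hb) hβ hstr hK hD
    (Real.sqrt_nonneg _) (fun t ht hle => by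
      rw [Real.sq_sqrt hρ]
      exact hnear t ht hle) hsmall
  refine fun t ht => ⟨key t ht, hnear t ht fun s hs => ?_⟩
  have := key s ⟨hs.1, hs.2.trans_lt ht.2⟩
  linarith

/-- the truncations near a regular Euler solution -/
theorem gal_by_euler {n : ℕ} (hn : 1 ≤ n) {T E B K b : ℝ} {u v : ℝ → V → V} {p q : ℝ → V → ℝ}
    (hT : 0 < T) (hu : IsSol 0 T u p) (hv : IsGal n T v q)
    (h0 : ∀ x i, v 0 x i = PN n (fun y => u 0 y i) x)
    (hE : energy (u 0) ≤ E) (hB : ∀ t ∈ Ico 0 T, dsq (u t) ≤ B)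
    (hbs : ∀ t ∈ Ioo 0 T, ∀ i j x, |str (fun k y => u t y k) i j x| ≤ b)
    (hK : b * T ≤ K)
    (hsmall : 2592 * Rx (Mx B K T) ^ 16 *
      Real.sqrt ((18 * Real.sqrt C7 * E + 2 * (E + B) / T) * (n : ℝ) ^ (-(1 / 4) : ℝ)
        * (1 + B) * T * Real.exp (6 * K + 1)) ≤ 1 / 2) :
    ∀ t ∈ Ico 0 T, dsq (v t) ≤ Mx B K T := by
  have h0T : (0 : ℝ) ∈ Ico 0 T := ⟨le_rfl, hT⟩
  have hB0 : 0 ≤ B := (dsq_nonneg _).trans (hB 0 h0T)
  have hE0 : 0 ≤ E := (energy_nn _).trans hE
  have htr := trunc_le (fun i => hu.sp h0T i) h0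
  have hβi : IntegrableOn (fun _ : ℝ => b) (Ioo 0 T) := integrableOn_const measure_Ioo_lt_top.ne
  have hb0 : ∀ t ∈ Ioo 0 T, 0 ≤ b := fun t ht => (abs_nonneg _).trans (hbs t ht 0 0 0)
  have hK' : ∫ _ in Ioo 0 T, b ≤ K := by
    rw [setIntegral_const, smul_eq_mul, Measure.real, Real.volume_Ioo, sub_zero,
      ENNReal.toReal_ofReal hT.le]
    linarith
  have hδ₀ : energy (fun y => u 0 y - v 0 y) ≤ (n : ℝ) ^ (-4 : ℤ) * (2 * (E + B)) :=
    (init_dist hn (fun i => hu.sp h0T i) h0).trans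
      (mul_le_mul_of_nonneg_left (by linarith [hB 0 h0T]) (by positivity))
  have hρ : 0 ≤ (18 * Real.sqrt C7 * E + 2 * (E + B) / T)
        * (n : ℝ) ^ (-(1 / 4) : ℝ) * (1 + B) * T * Real.exp (6 * K + 1) := by
    positivity
  refine shadow (a := v) (b := u) (fun t ht i => (hv.band ht i).sp) (fun t ht i => hu.sp ht i)
    hv.dsq_continuousOn (fun t ht s hs hb => hv.dsq_growth ht hs hb) hβi hbs hK'
    (htr.2.trans (hB 0 h0T)) (Real.sqrt_nonneg _) (fun t ht _ => ?_) hsmall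
  rw [Real.sq_sqrt hρ]
  have esw : energy (fun y => v t y - u t y) = energy (fun y => u t y - v t y) := by
    unfold energy
    refine Finset.sum_congr rfl fun i _ => ?_
    congr 1
    funext x
    simp only [Pi.sub_apply]
    ring
  rw [esw]
  refine (near_gal hu hv hβi hb0 hK' (htr.1.trans hE) (s₀ := 3 * Real.sqrt C7
      * (n : ℝ) ^ (-(1 / 4) : ℝ) * Real.sqrt B) (by positivity) hδ₀ ht
      (fun s hs => ?_) (fun s hs i j x => ?_)).trans
      (err_le hn hE0 hB0 hT hB0 (Real.exp_nonneg _))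
  · have hs' : s ∈ Ioo 0 T := ⟨hs.1, hs.2.trans ht.2⟩
    have hI : s ∈ Ico 0 T := ⟨hs'.1.le, hs'.2⟩
    have e := quad_swap (a := fun i y => u s y i) (b := fun i y => v s y i)
      (fun i => hu.sp hI i) (fun i => (hv.band hI i).sp) (hu.divfree s hI) (hv.divfree s hI)
    rw [e]
    exact quad_le (w := fun i x => u s x i - v s x i)
        (fun i => (hu.sp hI i).sub (hv.band hI i).sp) (S := str (fun k y => u s y k))
        (sp_str fun i => hu.sp hI i) (hbs s hs')
  · have hI : s ∈ Ico 0 T := ⟨hs.1.le, hs.2.trans ht.2⟩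
    refine (rest_grad hn (fun i => hu.sp hI i) i j x).trans ?_
    exact mul_le_mul_of_nonneg_left (Real.sqrt_le_sqrt (hB s hI)) (by positivity)

end Pool.Agent.U571.EG
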