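import Pool.Agent.U571.EG.Visc

/-!
The choice of the constants.
-/

set_option autoImplicit false

open MeasureTheory Set Filter Topology
open scoped ContDiff ENNReal

namespace Pool.Agent.U571.EG

open H459R3.NS H459R3.EU Pool.Agent.TH340.PS

theorem Rx_mono {M M' : ℝ} (h : M ≤ M') : Rx M ≤ Rx M' := by
  unfold Rx
  have : Real.sqrt (2 * M) ≤ Real.sqrt (2 * M') := Real.sqrt_le_sqrt (by linarith)
  have h2 : 36 * Real.sqrt C7 * Real.sqrt (2 * M) ≤ 36 * Real.sqrt C7 * Real.sqrt (2 * M') :=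
    mul_le_mul_of_nonneg_left this (by positivity)
  linarith

theorem Rx_ge_one (M : ℝ) : 1 ≤ Rx M := by
  unfold Rx
  have : 0 ≤ 36 * Real.sqrt C7 * Real.sqrt (2 * M) := by positivity
  linarith

/-- A small parameter `ε = y ^ 80` and constants which grow at most like small powers of `1 / y`. -/
theorem small_enough (E D T A : ℝ) (hE : 0 ≤ E) (hD : 0 ≤ D) (hT : 0 < T) (hA : 0 ≤ A) :
    ∃ Q : ℝ, 1 ≤ Q ∧ ∀ y K : ℝ, 0 < y → y ≤ Q⁻¹ → 0 ≤ K →
      Real.exp (41310 * K) ≤ (y⁻¹) ^ 4 → Real.exp (6 * K) ≤ (y⁻¹) ^ 2 →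
      2592 * Rx (Mx D K T) ^ 16 *
        Real.sqrt (A * y ^ 80 * (E + 2 * Mx D K T) * T * Real.exp (6 * K + 1)) ≤ 1 / 2 ∧
      A * y ^ 80 * (E + 2 * Mx D K T) * T * Real.exp (6 * K + 1) ≤ y ^ 40 := by
  set M₀ : ℝ := (D + 1) * Real.exp (41310 * T) with hM₀
  have hM₀0 : 0 < M₀ := by positivity
  set R₀ : ℝ := Rx M₀ with hR₀
  have hR₀1 : 1 ≤ R₀ := Rx_ge_one _
  set C₀ : ℝ := A * (E + 2 * M₀) * T * Real.exp 1 with hC₀
  have hC₀0 : 0 ≤ C₀ := by positivity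
  set Q : ℝ := 5184 * R₀ ^ 16 * Real.sqrt C₀ + C₀ + 1 with hQ
  have hs0 : 0 ≤ 5184 * R₀ ^ 16 * Real.sqrt C₀ := by positivity
  have hQ1 : 1 ≤ Q := by linarith
  have hQ0 : 0 < Q := by linarith
  refine ⟨Q, hQ1, fun y K hy0 hyQ hK0 h1 h2 => ?_⟩
  have hy1 : y ≤ 1 := hyQ.trans (inv_le_one_of_one_le₀ hQ1)
  have hyQ' : y * Q ≤ 1 := by
    calc y * Q ≤ Q⁻¹ * Q := mul_le_mul_of_nonneg_right hyQ hQ0.le
      _ = 1 := inv_mul_cancel₀ hQ0.ne'
  have hyi : 1 ≤ y⁻¹ := (one_le_inv₀ hy0).2 hy1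
  have hyi0 : 0 < y⁻¹ := by positivity
  have eM : Mx D K T = M₀ * Real.exp (41310 * K) := by
    unfold Mx
    rw [hM₀, mul_add, Real.exp_add]
    ring
  have hM1 : Mx D K T ≤ M₀ * (y⁻¹) ^ 4 := by
    rw [eM]
    exact mul_le_mul_of_nonneg_left h1 hM₀0.le
  have hMx0 : 0 < Mx D K T := by unfold Mx; positivity
  have hR1 : Rx (Mx D K T) ≤ R₀ * (y⁻¹) ^ 2 := by
    refine (Rx_mono hM1).trans ?_
    rw [hR₀]
    unfold Rx
    have e : Real.sqrt (2 * (M₀ * (y⁻¹) ^ 4)) = Real.sqrt (2 * M₀) * (y⁻¹) ^ 2 := by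
      rw [← mul_assoc, Real.sqrt_mul (by positivity)]
      congr 1
      rw [show (y⁻¹) ^ 4 = ((y⁻¹) ^ 2) ^ 2 by ring, Real.sqrt_sq (by positivity)]
    rw [e]
    have : 1 ≤ (y⁻¹) ^ 2 := one_le_pow₀ hyi
    nlinarith [mul_nonneg (mul_nonneg (by norm_num : (0 : ℝ) ≤ 36) (Real.sqrt_nonneg C7))
      (Real.sqrt_nonneg (2 * M₀))]
  have hR16 : Rx (Mx D K T) ^ 16 ≤ R₀ ^ 16 * (y⁻¹) ^ 32 := by
    calc Rx (Mx D K T) ^ 16 ≤ (R₀ * (y⁻¹) ^ 2) ^ 16 :=
          pow_le_pow_left₀ (by linarith [Rx_ge_one (Mx D K T)]) hR1 16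
      _ = _ := by rw [mul_pow, ← pow_mul]
  have hS : A * y ^ 80 * (E + 2 * Mx D K T) * T * Real.exp (6 * K + 1) ≤ C₀ * y ^ 74 := by
    have k1 : E + 2 * Mx D K T ≤ (E + 2 * M₀) * (y⁻¹) ^ 4 := by
      have : 1 ≤ (y⁻¹) ^ 4 := one_le_pow₀ hyi
      nlinarith
    have k2 : Real.exp (6 * K + 1) ≤ (y⁻¹) ^ 2 * Real.exp 1 := by
      rw [Real.exp_add]
      exact mul_le_mul_of_nonneg_right h2 (Real.exp_nonneg _)
    calc A * y ^ 80 * (E + 2 * Mx D K T) * T * Real.exp (6 * K + 1)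
        ≤ A * y ^ 80 * ((E + 2 * M₀) * (y⁻¹) ^ 4) * T * ((y⁻¹) ^ 2 * Real.exp 1) := by
          gcongr
      _ = C₀ * (y ^ 80 * (y⁻¹) ^ 6) := by rw [hC₀]; ring
      _ = C₀ * y ^ 74 := by
          have e : y ^ 80 * (y⁻¹) ^ 6 = y ^ 74 := by field_simp
          rw [e]
  constructor
  · have hs : Real.sqrt (A * y ^ 80 * (E + 2 * Mx D K T) * T * Real.exp (6 * K + 1))
        ≤ Real.sqrt C₀ * y ^ 37 := by
      refine (Real.sqrt_le_sqrt hS).trans ?_
      rw [Real.sqrt_mul hC₀0, show y ^ 74 = (y ^ 37) ^ 2 by ring, Real.sqrt_sq (by positivity)]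
    calc 2592 * Rx (Mx D K T) ^ 16 *
          Real.sqrt (A * y ^ 80 * (E + 2 * Mx D K T) * T * Real.exp (6 * K + 1))
        ≤ 2592 * (R₀ ^ 16 * (y⁻¹) ^ 32) * (Real.sqrt C₀ * y ^ 37) := by
          refine mul_le_mul (mul_le_mul_of_nonneg_left hR16 (by norm_num)) hs
            (Real.sqrt_nonneg _) (by positivity)
      _ = 2592 * R₀ ^ 16 * Real.sqrt C₀ * (y ^ 37 * (y⁻¹) ^ 32) := by ring
      _ = 2592 * R₀ ^ 16 * Real.sqrt C₀ * y ^ 5 := by
          have e : y ^ 37 * (y⁻¹) ^ 32 = y ^ 5 := by field_simp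
          rw [e]
      _ ≤ 2592 * R₀ ^ 16 * Real.sqrt C₀ * y :=
          mul_le_mul_of_nonneg_left (pow_le_of_le_one hy0.le hy1 (by norm_num)) (by positivity)
      _ ≤ 1 / 2 := by nlinarith
  · refine hS.trans ?_
    have hC : C₀ * y ≤ 1 := by nlinarith
    calc C₀ * y ^ 74 = (C₀ * y) * y ^ 73 := by ring
      _ ≤ 1 * y ^ 73 := mul_le_mul_of_nonneg_right hC (by positivity)
      _ ≤ y ^ 40 := by
          rw [one_mul]
          exact pow_le_pow_of_le_one hy0.le hy1 (by norm_num)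

/-- the root of the small parameter -/
theorem root_param {ε Q K : ℝ} (hε : 0 < ε) (hQ : 1 ≤ Q) (hεQ : ε ≤ (Q⁻¹) ^ 80)
    (hK : K ≤ 1 / 10 ^ 6 * Real.log (1 / ε)) :
    ∃ y : ℝ, 0 < y ∧ y ≤ Q⁻¹ ∧ y ^ 80 = ε ∧ Real.exp (41310 * K) ≤ (y⁻¹) ^ 4 ∧
      Real.exp (6 * K) ≤ (y⁻¹) ^ 2 := by
  have hQ0 : 0 < Q := by linarith
  set y : ℝ := Real.exp (Real.log ε / 80) with hy
  have hy0 : 0 < y := Real.exp_pos _
  have e1 : y ^ 80 = ε := by
    rw [hy, ← Real.exp_nat_mul]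
    push_cast
    rw [mul_div_cancel₀ _ (by norm_num : (80 : ℝ) ≠ 0), Real.exp_log hε]
  have hyQ : y ≤ Q⁻¹ := by
    have : y ^ 80 ≤ (Q⁻¹) ^ 80 := by rw [e1]; exact hεQ
    exact (pow_le_pow_iff_left₀ hy0.le (by positivity) (by norm_num)).1 this
  have hy1 : y ≤ 1 := hyQ.trans (inv_le_one_of_one_le₀ hQ)
  have hL : Real.log ε ≤ 0 := by
    have h80 : y ^ 80 ≤ 1 := pow_le_one₀ hy0.le hy1
    rw [e1] at h80
    exact Real.log_nonpos hε.le h80
  have hl : Real.log (1 / ε) = -Real.log ε := by rw [one_div, Real.log_inv]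
  rw [hl] at hK
  have ei : ∀ n : ℕ, (y⁻¹) ^ n = Real.exp (n * (-Real.log ε / 80)) := by
    intro n
    rw [hy, ← Real.exp_neg, ← Real.exp_nat_mul]
    congr 1
    ring
  refine ⟨y, hy0, hyQ, e1, ?_, ?_⟩
  · rw [ei 4]
    refine Real.exp_le_exp.2 ?_
    push_cast
    norm_num at hK ⊢
    linarith
  · rw [ei 2]
    refine Real.exp_le_exp.2 ?_
    push_cast
    norm_num at hK ⊢
    linarith

/-- a bound of the strain -/
theorem str_sup_le {v : V → V} (hv : ∀ i, SP (fun y => v y i)) {E M : ℝ} (hE : energy v ≤ E)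
    (hM : dsq v ≤ M) (i j : Fin 3) (x : V) :
    |str (fun k y => v y k) i j x| ≤ Real.sqrt (E + M) + 3 * Real.sqrt C4 * Real.sqrt M := by
  obtain ⟨s₁, hs₁⟩ := exists_str_bound (v := fun k y => v y k) hv
  have hBS : BS (fun k y => v y k) s₁ (Real.sqrt M) :=
    ⟨hv, hs₁, fun l i j k => (nrm_le_third v l i j k).trans (Real.sqrt_le_sqrt hM)⟩
  have h1 := sup_le (sp_str hv i j) x
  have h2 := nrm_lap_str hBS i j
  have h3 := enstrophy_le hv
  have hpd : ∀ i j, nrm (pd j (fun y => v y i)) ≤ Real.sqrt (E + M) := by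
    intro i j
    unfold nrm
    refine Real.sqrt_le_sqrt ?_
    have : ∫ x in cube, pd j (fun y => v y i) x ^ 2 ≤ enstrophy v :=
      (Finset.single_le_sum (f := fun j => ∫ x in cube, pd j (fun y => v y i) x ^ 2)
        (fun _ _ => integral_nonneg fun _ => sq_nonneg _) (Finset.mem_univ j)).trans
        (Finset.single_le_sum (f := fun i => ∑ j, ∫ x in cube, pd j (fun y => v y i) x ^ 2)
        (fun _ _ => Finset.sum_nonneg fun _ _ => integral_nonneg fun _ => sq_nonneg _)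
        (Finset.mem_univ i))
    linarith
  have h4 : nrm (str (fun k y => v y k) i j) ≤ Real.sqrt (E + M) := by
    have e : str (fun k y => v y k) i j = fun x => (1 / 2 : ℝ) * pd i (fun y => v y j) x
        + (1 / 2 : ℝ) * pd j (fun y => v y i) x := by
      funext x; unfold str; ring
    rw [e]
    refine (nrm_add_le (f := fun x => (1 / 2 : ℝ) * pd i (fun y => v y j) x)
      (g := fun x => (1 / 2 : ℝ) * pd j (fun y => v y i) x)
      (continuous_const.mul ((hv j).pd i).cont) (continuous_const.mul ((hv i).pd j).cont)).trans ?_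
    have a1 := nrm_mul_le (f := fun _ => (1 / 2 : ℝ)) continuous_const ((hv j).pd i).cont
      (b := 1 / 2) (fun _ => by norm_num)
    have a2 := nrm_mul_le (f := fun _ => (1 / 2 : ℝ)) continuous_const ((hv i).pd j).cont
      (b := 1 / 2) (fun _ => by norm_num)
    have b1 := hpd j i
    have b2 := hpd i j
    linarith
  have h5 : Real.sqrt C4 * nrm (lap (str (fun k y => v y k) i j))
      ≤ 3 * Real.sqrt C4 * Real.sqrt M := by
    calc _ ≤ Real.sqrt C4 * (3 * Real.sqrt M) := mul_le_mul_of_nonneg_left h2 (Real.sqrt_nonneg _)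
      _ = _ := by ring
  linarith

theorem strain2_le {v : V → V} {b : ℝ}
    (h : ∀ i j x, |str (fun k y => v y k) i j x| ≤ b) (x : V) : strain2 v x ≤ (3 * b) ^ 2 := by
  have h0 : 0 ≤ b := (abs_nonneg _).trans (h 0 0 x)
  have e : strain2 v x = ∑ i, ∑ j, str (fun k y => v y k) i j x ^ 2 := rfl
  rw [e]
  have h1 : ∀ i j, str (fun k y => v y k) i j x ^ 2 ≤ b ^ 2 := fun i j => by
    rw [← sq_abs]
    exact pow_le_pow_left₀ (abs_nonneg _) (h i j x) 2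
  refine (Finset.sum_le_sum fun i _ => Finset.sum_le_sum fun j _ => h1 i j).trans ?_
  simp
  nlinarith

end Pool.Agent.U571.EG
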