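import Pool.Agent.U571.EG.GDefs
import Pool.Agent.U571.EG.Quant

/-!
Truncated Fourier series.
-/

set_option autoImplicit false

open MeasureTheory Set Filter Topology
open scoped ContDiff ENNReal

namespace Pool.Agent.U571.EG

open H459R3.NS H459R3.EU Pool.Agent.TH340.PS

theorem mem_boxF {n : ℕ} {k : K3} : k ∈ boxF n ↔ N k ≤ n := by
  rw [N_le_iff]
  unfold boxF
  simp only [Fintype.mem_piFinset, Finset.mem_Icc, abs_le]

theorem neg_mem_boxF {n : ℕ} {k : K3} : -k ∈ boxF n ↔ k ∈ boxF n := by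
  rw [mem_boxF, mem_boxF, N_le_iff, N_le_iff]
  simp only [Pi.neg_apply, abs_neg]

theorem fr_neg (f : V → ℝ) (k : K3) : fr f (-k) = (starRingEnd ℂ) (fr f k) := by
  unfold fr fc
  rw [← integral_conj]
  congr 1
  funext x
  rw [map_mul, ← ee_neg, Complex.conj_ofReal]

theorem PN_ofReal (n : ℕ) (f : V → ℝ) (x : V) :
    ((PN n f x : ℝ) : ℂ) = ∑ k ∈ boxF n, fr f k * ee k x := by
  unfold PN
  refine (Complex.conj_eq_iff_re.1 ?_)
  rw [map_sum]
  have e : ∀ k, (starRingEnd ℂ) (fr f k * ee k x) = fr f (-k) * ee (-k) x := fun k => by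
    rw [map_mul, fr_neg, ee_neg]
  simp_rw [e]
  refine Finset.sum_equiv (Equiv.neg K3) (fun k => ?_) (fun k _ => rfl)
  simp only [Equiv.neg_apply]
  exact neg_mem_boxF.symm

theorem sp_PN (n : ℕ) (f : V → ℝ) : SP (PN n f) where
  smooth := by
    unfold PN
    refine Complex.reCLM.contDiff.comp ?_
    exact ContDiff.sum fun k _ => contDiff_const.mul (ee_contDiff k)
  per := fun i x => by
    unfold PN
    simp only [ee_per _ i x]

theorem fr_PN (n : ℕ) (f : V → ℝ) (k : K3) :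
    fr (PN n f) k = if k ∈ boxF n then fr f k else 0 := by
  have e1 : fr (PN n f) k = ∑ l ∈ boxF n, fr f l * ∫ x in cube, ee (l + -k) x := by
    have e0 : fr (PN n f) k = ∫ x in cube, ee (-k) x * ((PN n f x : ℝ) : ℂ) := rfl
    rw [e0]
    have e2 : ∀ x, ee (-k) x * ((PN n f x : ℝ) : ℂ) = ∑ l ∈ boxF n, fr f l * ee (l + -k) x := by
      intro x
      rw [PN_ofReal, Finset.mul_sum]
      refine Finset.sum_congr rfl fun l _ => ?_
      rw [ee_add_left]
      ring
    simp_rw [e2]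
    have hi : ∀ l ∈ boxF n, Integrable (fun x => fr f l * ee (l + -k) x)
        (volume.restrict cube) := fun l _ =>
      integrableOn_cube (continuous_const.mul (ee_continuous (l + -k)))
    rw [integral_finsetSum _ hi]
    exact Finset.sum_congr rfl fun l _ => integral_const_mul _ _
  rw [e1]
  simp_rw [integral_ee]
  by_cases hk : k ∈ boxF n
  · rw [if_pos hk, Finset.sum_eq_single k]
    · simp
    · intro l _ hl
      rw [if_neg (fun h => hl (by rwa [add_neg_eq_zero] at h)), mul_zero]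
    · intro h
      exact absurd hk h
  · rw [if_neg hk]
    refine Finset.sum_eq_zero fun l hl => ?_
    rw [if_neg (fun h => hk (by rw [add_neg_eq_zero] at h; rwa [← h])), mul_zero]

/-- smooth with frequencies in the box -/
structure Band (n : ℕ) (f : V → ℝ) : Prop where
  sp : SP f
  fr : ∀ k ∉ boxF n, fr f k = 0

/-- smooth with frequencies outside the box -/
structure CoBand (n : ℕ) (f : V → ℝ) : Prop where
  sp : SP f
  fr : ∀ k ∈ boxF n, H459R3.NS.fr f k = 0

theorem band_PN (n : ℕ) (f : V → ℝ) : Band n (PN n f) :=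
  ⟨sp_PN n f, fun k hk => by rw [fr_PN, if_neg hk]⟩

theorem band_of_eq {n : ℕ} {f : V → ℝ} (h : ∀ x, PN n f x = f x) : Band n f := by
  have e : PN n f = f := funext h
  have := band_PN n f
  rwa [e] at this

theorem Band.pd {n : ℕ} {f : V → ℝ} (h : Band n f) (j : Fin 3) : Band n (pd j f) :=
  ⟨h.sp.pd j, fun k hk => by rw [fr_pd h.sp, D, h.fr k hk, mul_zero]⟩

theorem CoBand.pd {n : ℕ} {f : V → ℝ} (h : CoBand n f) (j : Fin 3) :
    CoBand n (H459R3.NS.pd j f) :=
  ⟨h.sp.pd j, fun k hk => by rw [fr_pd h.sp, D, h.fr k hk, mul_zero]⟩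

theorem fr_sub {f g : V → ℝ} (hf : SP f) (hg : SP g) (k : K3) :
    fr (fun x => f x - g x) k = fr f k - fr g k := by
  unfold fr fc
  rw [← integral_sub]
  · congr 1
    funext x
    push_cast
    ring
  · exact integrableOn_cube ((ee_continuous _).mul (Complex.continuous_ofReal.comp hf.cont))
  · exact integrableOn_cube ((ee_continuous _).mul (Complex.continuous_ofReal.comp hg.cont))

theorem Band.sub {n : ℕ} {f g : V → ℝ} (hf : Band n f) (hg : Band n g) :
    Band n (fun x => f x - g x) :=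
  ⟨hf.sp.sub hg.sp, fun k hk => by rw [fr_sub hf.sp hg.sp, hf.fr k hk, hg.fr k hk, sub_zero]⟩

theorem fr_rest {n : ℕ} {f : V → ℝ} (hf : SP f) (k : K3) :
    fr (fun x => f x - PN n f x) k = if k ∈ boxF n then 0 else fr f k := by
  rw [fr_sub hf (sp_PN n f), fr_PN]
  split_ifs <;> simp

theorem coBand_rest {n : ℕ} {f : V → ℝ} (hf : SP f) : CoBand n (fun x => f x - PN n f x) :=
  ⟨hf.sub (sp_PN n f), fun k hk => by rw [fr_rest hf, if_pos hk]⟩

/-- orthogonality -/
theorem orth {n : ℕ} {f g : V → ℝ} (hf : CoBand n f) (hg : Band n g) :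
    ∫ x in cube, f x * g x = 0 := by
  have hs := (rap_fr hf.sp).summable
  have h1 := integral_S_mul hs (g := fun x => (g x : ℂ))
    (Complex.continuous_ofReal.comp hg.sp.cont)
  have h2 : ∀ k, fr f k * ∫ x in cube, ee k x * (g x : ℂ) = 0 := by
    intro k
    have e : ∫ x in cube, ee k x * (g x : ℂ) = fr g (-k) := by
      unfold fr fc
      rw [neg_neg]
    rw [e]
    by_cases hk : k ∈ boxF n
    · rw [hf.fr k hk, zero_mul]
    · rw [hg.fr (-k) (fun h => hk (neg_mem_boxF.1 h)), mul_zero]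
  simp_rw [h2] at h1
  have h3 := h1.unique hasSum_zero
  have h4 : ∫ x in cube, S (fr f) x * (g x : ℂ) = ((∫ x in cube, f x * g x : ℝ) : ℂ) := by
    rw [← integral_complex_ofReal]
    congr 1
    funext x
    rw [S_fr hf.sp]
    push_cast
    rfl
  rw [h4] at h3
  exact_mod_cast h3

/-- the part of high frequency is small in the maximum norm -/
theorem tail_sup {n : ℕ} (hn : 1 ≤ n) {g h : V → ℝ} (hg : SP g) (hh : SP h)
    (hgh : ∀ k, fr g k = if k ∈ boxF n then 0 else fr h k) (x : V) :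
    |g x| ≤ Real.sqrt C7 * (n : ℝ) ^ (-(1 / 4) : ℝ) * nrm (lap h) := by
  have hn0 : (0 : ℝ) < n := by exact_mod_cast hn
  have hrp := rap_fr hg
  have hl := rap_fr hh.lap
  set c : ℝ := (n : ℝ) ^ (-(1 / 4) : ℝ) with hc
  have hc0 : 0 ≤ c := by positivity
  set w : K3 → ℝ := fun k => Real.sqrt (if k = 0 then (0 : ℝ) else (N k : ℝ) ^ (-(7 / 2) : ℝ)) with hw
  have hs := summable_term hrp.summable
  have e1 : ((g x : ℝ) : ℂ) = ∑' k, fr g k * ee k x := (S_fr hg x).symm
  have hbd : ∀ k, ‖fr g k * ee k x‖ ≤ c * (w k * ‖fr (lap h) k‖) := by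
    intro k
    rw [norm_mul, norm_ee, mul_one, hgh k]
    by_cases hk : k ∈ boxF n
    · rw [if_pos hk, norm_zero]
      positivity
    · rw [if_neg hk]
      have hNn : n < N k := by
        by_contra hcon
        exact hk (mem_boxF.2 (not_lt.1 hcon))
      have hN' : (0 : ℝ) < N k := by exact_mod_cast (lt_of_le_of_lt (Nat.zero_le n) hNn)
      have hk0 : k ≠ 0 := fun h => by
        have := N_eq_zero.2 h
        omega
      have h2 := N_sq_fr_le hh k
      have ew : w k = (N k : ℝ) ^ (-(7 / 4) : ℝ) := by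
        simp only [hw]
        rw [if_neg hk0, Real.sqrt_eq_rpow, ← Real.rpow_mul hN'.le]
        norm_num
      rw [ew]
      have h3 : ‖fr h k‖ = (N k : ℝ) ^ (-(1 / 4) : ℝ) * ((N k : ℝ) ^ (-(7 / 4) : ℝ)
          * ((N k : ℝ) ^ 2 * ‖fr h k‖)) := by
        have e : (N k : ℝ) ^ (-(1 / 4) : ℝ) * ((N k : ℝ) ^ (-(7 / 4) : ℝ) * (N k : ℝ) ^ 2) = 1 := by
          rw [← Real.rpow_natCast (N k : ℝ) 2, ← Real.rpow_add hN', ← Real.rpow_add hN']
          norm_num
        calc ‖fr h k‖ = ((N k : ℝ) ^ (-(1 / 4) : ℝ) * ((N k : ℝ) ^ (-(7 / 4) : ℝ)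
              * (N k : ℝ) ^ 2)) * ‖fr h k‖ := by rw [e, one_mul]
          _ = _ := by ring
      rw [h3]
      have h4 : (N k : ℝ) ^ (-(1 / 4) : ℝ) ≤ c := by
        rw [hc]
        exact Real.rpow_le_rpow_of_nonpos hn0 (by exact_mod_cast hNn.le) (by norm_num)
      exact mul_le_mul h4 (mul_le_mul_of_nonneg_left h2 (by positivity)) (by positivity) hc0
  have sq1 : Summable fun k : K3 => w k ^ 2 := by
    refine summable_N7.congr fun k => ?_
    simp only [hw]
    rw [Real.sq_sqrt (by split_ifs <;> positivity)]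
  have sq2 := summable_sq hl.summable
  have hw0 : ∀ k, 0 ≤ w k := fun k => Real.sqrt_nonneg _
  have s2 : Summable fun k : K3 => w k * ‖fr (lap h) k‖ := by
    refine Summable.of_nonneg_of_le (fun k => mul_nonneg (hw0 k) (norm_nonneg _)) (fun k => ?_)
      (sq1.add sq2)
    nlinarith [sq_nonneg (w k - ‖fr (lap h) k‖), sq_nonneg (w k), sq_nonneg ‖fr (lap h) k‖]
  have s3 : Summable fun k => ‖fr g k * ee k x‖ :=
    Summable.of_nonneg_of_le (fun k => norm_nonneg _) hbd (s2.mul_left _)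
  have h1 : |g x| ≤ ∑' k, c * (w k * ‖fr (lap h) k‖) := by
    rw [← Real.norm_eq_abs, ← Complex.norm_real, e1]
    exact (norm_tsum_le_tsum_norm s3).trans (s3.tsum_le_tsum hbd (s2.mul_left _))
  rw [tsum_mul_left] at h1
  have t2 : ∑' k : K3, w k * ‖fr (lap h) k‖ ≤ Real.sqrt C7 * nrm (lap h) := by
    refine s2.tsum_le_of_sum_le fun F => ?_
    have b1 := Finset.sum_mul_sq_le_sq_mul_sq F w (fun k => ‖fr (lap h) k‖)
    have b2 : ∑ k ∈ F, w k ^ 2 ≤ C7 := by
      have : ∑' k : K3, w k ^ 2 = C7 :=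
        tsum_congr fun k => by
          simp only [hw]
          exact Real.sq_sqrt (by split_ifs <;> positivity)
      rw [← this]
      exact sq1.sum_le_tsum F fun _ _ => sq_nonneg _
    have b3 : ∑ k ∈ F, ‖fr (lap h) k‖ ^ 2 ≤ nrm (lap h) ^ 2 := by
      rw [nrm_sq, ← n2_fr hh.lap, n2_sq]
      exact sq2.sum_le_tsum F fun _ _ => sq_nonneg _
    have b4 : (∑ k ∈ F, w k * ‖fr (lap h) k‖) ^ 2 ≤ (Real.sqrt C7 * nrm (lap h)) ^ 2 := by
      rw [mul_pow, Real.sq_sqrt C7_nonneg]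
      exact b1.trans (mul_le_mul b2 b3 (Finset.sum_nonneg fun _ _ => sq_nonneg _) C7_nonneg)
    exact abs_le_of_sq_le_sq' b4 (mul_nonneg (Real.sqrt_nonneg _) (nrm_nonneg _)) |>.2
  calc _ ≤ c * ∑' k : K3, w k * ‖fr (lap h) k‖ := h1
    _ ≤ c * (Real.sqrt C7 * nrm (lap h)) := mul_le_mul_of_nonneg_left t2 hc0
    _ = _ := by ring

/-- the part of high frequency is small in `L²` -/
theorem tail_nrm {n : ℕ} (hn : 1 ≤ n) {f : V → ℝ} (hf : SP f) :
    nrm (fun x => f x - PN n f x) ^ 2 ≤ (n : ℝ) ^ (-4 : ℤ) * nrm (lap f) ^ 2 := by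
  have hn0 : (0 : ℝ) < n := by exact_mod_cast hn
  have hr : SP (fun x => f x - PN n f x) := hf.sub (sp_PN n f)
  rw [nrm_sq, nrm_sq, ← n2_fr hr, ← n2_fr hf.lap, n2_sq, n2_sq, ← tsum_mul_left]
  have s1 := summable_sq (rap_fr hr).summable
  have s2 := summable_sq (rap_fr hf.lap).summable
  refine s1.tsum_le_tsum (fun k => ?_) (s2.mul_left _)
  rw [fr_rest hf]
  by_cases hk : k ∈ boxF n
  · rw [if_pos hk, norm_zero, zero_pow (by norm_num)]
    positivity
  · rw [if_neg hk]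
    have hNn : n < N k := by
      by_contra hcon
      exact hk (mem_boxF.2 (not_lt.1 hcon))
    have hN : (n : ℝ) ≤ N k := by exact_mod_cast hNn.le
    have h2 := N_sq_fr_le hf k
    have h3 : (n : ℝ) ^ 2 * ‖fr f k‖ ≤ ‖fr (lap f) k‖ :=
      (mul_le_mul_of_nonneg_right (pow_le_pow_left₀ hn0.le hN 2) (norm_nonneg _)).trans h2
    have h4 : ((n : ℝ) ^ 2 * ‖fr f k‖) ^ 2 ≤ ‖fr (lap f) k‖ ^ 2 :=
      pow_le_pow_left₀ (by positivity) h3 2
    calc ‖fr f k‖ ^ 2 = (n : ℝ) ^ (-4 : ℤ) * ((n : ℝ) ^ 2 * ‖fr f k‖) ^ 2 := by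
          rw [show (-4 : ℤ) = -(4 : ℕ) by norm_num, zpow_neg, zpow_natCast]
          field_simp
      _ ≤ _ := mul_le_mul_of_nonneg_left h4 (by positivity)

/-- Bessel's inequality -/
theorem nrm_PN_le {n : ℕ} {f : V → ℝ} (hf : SP f) : nrm (PN n f) ^ 2 ≤ nrm f ^ 2 := by
  rw [nrm_sq, nrm_sq, ← n2_fr hf, ← n2_fr (sp_PN n f), n2_sq, n2_sq]
  have s1 := summable_sq (rap_fr (sp_PN n f)).summable
  have s2 := summable_sq (rap_fr hf).summable
  refine s1.tsum_le_tsum (fun k => ?_) s2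
  rw [fr_PN]
  split_ifs
  · exact le_rfl
  · rw [norm_zero, zero_pow (by norm_num)]
    positivity

end Pool.Agent.U571.EG
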