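import Pool.Agent.U571.EG.Str

/-!
The relative energy of two solutions.
-/

set_option autoImplicit false

open MeasureTheory Set Filter Topology
open scoped ContDiff ENNReal

namespace Pool.Agent.U571.EG

open H459R3.NS H459R3.EU Pool.Agent.TH340.PS

/-- the convection terms of two fields tested with the difference -/
theorem conv_diff {a b : Fin 3 → V → ℝ} (ha : ∀ i, SP (a i)) (hb : ∀ i, SP (b i))
    (hda : ∀ x, ∑ i, pd i (a i) x = 0) :
    ∑ i, ∫ x in cube, (a i x - b i x) * (conv a i x - conv b i x)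
      = ∑ i, ∑ j, ∫ x in cube, (a i x - b i x) * (a j x - b j x) * str b i j x := by
  set w : Fin 3 → V → ℝ := fun i x => a i x - b i x with hw
  have hws : ∀ i, SP (w i) := fun i => (ha i).sub (hb i)
  have e1 : ∀ i x, (a i x - b i x) * (conv a i x - conv b i x)
      = (∑ j, a j x * (w i x * pd j (w i) x)) + ∑ j, (w i x * w j x) * pd j (b i) x := by
    intro i x
    have a1 : ∀ j, pd j (w i) x = pd j (a i) x - pd j (b i) x :=
      fun j => congrFun (pd_sub (ha i) (hb i) j) x
    unfold conv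
    rw [← Finset.sum_add_distrib, ← Finset.sum_sub_distrib, Finset.mul_sum]
    refine Finset.sum_congr rfl fun j _ => ?_
    rw [a1 j]
    simp only [hw]
    ring
  have e2 : ∀ i, ∫ x in cube, (a i x - b i x) * (conv a i x - conv b i x)
      = ∑ j, ∫ x in cube, (w i x * w j x) * pd j (b i) x := by
    intro i
    simp_rw [e1 i]
    have s1 : ∀ j, SP (fun x => a j x * (w i x * pd j (w i) x)) :=
      fun j => (ha j).mul ((hws i).mul ((hws i).pd j))
    have s2 : ∀ j, SP (fun x => (w i x * w j x) * pd j (b i) x) :=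
      fun j => ((hws i).mul (hws j)).mul ((hb i).pd j)
    rw [integral_add (SP.sum fun j (_ : j ∈ Finset.univ) => s1 j).int
      (SP.sum fun j (_ : j ∈ Finset.univ) => s2 j).int,
      integral_finsetSum _ (fun j _ => (s1 j).int), integral_finsetSum _ (fun j _ => (s2 j).int),
      transport_zero ha hda (hws i), zero_add]
  simp_rw [e2]
  have e3 : ∀ i j, ∫ x in cube, (a i x - b i x) * (a j x - b j x) * str b i j x
      = 1 / 2 * (∫ x in cube, (w i x * w j x) * pd j (b i) x)
        + 1 / 2 * ∫ x in cube, (w j x * w i x) * pd i (b j) x := by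
    intro i j
    rw [← integral_const_mul, ← integral_const_mul, ← integral_add]
    · congr 1
      funext x
      unfold str
      simp only [hw]
      ring
    · exact (((hws i).mul (hws j)).mul ((hb i).pd j)).int.const_mul _
    · exact (((hws j).mul (hws i)).mul ((hb j).pd i)).int.const_mul _
  simp_rw [e3, Finset.sum_add_distrib]
  have e4 : ∑ i, ∑ j, 1 / 2 * ∫ x in cube, (w j x * w i x) * pd i (b j) x
      = ∑ i, ∑ j, 1 / 2 * ∫ x in cube, (w i x * w j x) * pd j (b i) x := Finset.sum_comm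
  rw [e4, ← Finset.sum_add_distrib]
  refine Finset.sum_congr rfl fun i _ => ?_
  rw [← Finset.sum_add_distrib]
  exact Finset.sum_congr rfl fun j _ => by ring

/-- the bound of the quadratic form -/
theorem quad_le {w : Fin 3 → V → ℝ} (hw : ∀ i, SP (w i)) {S : Fin 3 → Fin 3 → V → ℝ}
    (hS : ∀ i j, SP (S i j)) {b : ℝ} (hb : ∀ i j x, |S i j x| ≤ b) :
    |∑ i, ∑ j, ∫ x in cube, w i x * w j x * S i j x| ≤ 3 * b * ∑ i, ∫ x in cube, w i x ^ 2 := by
  have hb0 : 0 ≤ b := (abs_nonneg _).trans (hb 0 0 0)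
  have h1 : ∀ i j, |∫ x in cube, w i x * w j x * S i j x| ≤ b * (nrm (w i) * nrm (w j)) := by
    intro i j
    have e : ∀ x, w i x * w j x * S i j x = w i x * (S i j x * w j x) := fun x => by ring
    simp_rw [e]
    refine (abs_int_mul_le (hw i).cont ((hS i j).mul (hw j)).cont).trans ?_
    have h2 := nrm_mul_le (hS i j).cont (hw j).cont (hb i j)
    calc nrm (w i) * nrm (fun x => S i j x * w j x) ≤ nrm (w i) * (b * nrm (w j)) :=
          mul_le_mul_of_nonneg_left h2 (nrm_nonneg _)
      _ = _ := by ring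
  have h2 : |∑ i, ∑ j, ∫ x in cube, w i x * w j x * S i j x|
      ≤ ∑ i, ∑ j, b * (nrm (w i) * nrm (w j)) :=
    (Finset.abs_sum_le_sum_abs _ _).trans (Finset.sum_le_sum fun i _ =>
      (Finset.abs_sum_le_sum_abs _ _).trans (Finset.sum_le_sum fun j _ => h1 i j))
  refine h2.trans ?_
  simp_rw [← nrm_sq]
  simp only [Fin.sum_univ_three]
  have k0 := sq_nonneg (nrm (w 0) - nrm (w 1))
  have k1 := sq_nonneg (nrm (w 0) - nrm (w 2))
  have k2 := sq_nonneg (nrm (w 1) - nrm (w 2))
  have : b * (nrm (w 0) * nrm (w 0)) + b * (nrm (w 0) * nrm (w 1)) + b * (nrm (w 0) * nrm (w 2))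
      + (b * (nrm (w 1) * nrm (w 0)) + b * (nrm (w 1) * nrm (w 1)) + b * (nrm (w 1) * nrm (w 2)))
      + (b * (nrm (w 2) * nrm (w 0)) + b * (nrm (w 2) * nrm (w 1)) + b * (nrm (w 2) * nrm (w 2)))
      = 3 * b * (nrm (w 0) ^ 2 + nrm (w 1) ^ 2 + nrm (w 2) ^ 2)
        - b * ((nrm (w 0) - nrm (w 1)) ^ 2 + (nrm (w 0) - nrm (w 2)) ^ 2
          + (nrm (w 1) - nrm (w 2)) ^ 2) := by ring
  rw [this]
  have : 0 ≤ b * ((nrm (w 0) - nrm (w 1)) ^ 2 + (nrm (w 0) - nrm (w 2)) ^ 2
          + (nrm (w 1) - nrm (w 2)) ^ 2) := by positivity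
  linarith

/-- derivative of the relative energy -/
theorem rel_hasDerivAt {μ l T : ℝ} {a b : ℝ → V → V} {p q : ℝ → V → ℝ} (ha : IsSol μ T a p)
    (hb : IsSol l T b q) {t : ℝ} (ht : t ∈ Ioo 0 T) :
    HasDerivAt (fun s => energy (fun y => a s y - b s y))
      (2 * (μ * (∑ i, ∫ x in cube, lap (fun y => a t y i) x * (a t x i - b t x i))
        - l * (∑ i, ∫ x in cube, lap (fun y => b t y i) x * (a t x i - b t x i))
        - ∑ i, ∑ j, ∫ x in cube, (a t x i - b t x i) * (a t x j - b t x j)
          * str (fun i y => b t y i) i j x)) t := by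
  have hI : t ∈ Ico 0 T := ⟨ht.1.le, ht.2⟩
  set A : Fin 3 → V → ℝ := fun i y => a t y i with hA
  set B : Fin 3 → V → ℝ := fun i y => b t y i with hB
  set w : Fin 3 → V → ℝ := fun i y => A i y - B i y with hw
  have hAs : ∀ i, SP (A i) := fun i => ha.sp hI i
  have hBs : ∀ i, SP (B i) := fun i => hb.sp hI i
  have hws : ∀ i, SP (w i) := fun i => (hAs i).sub (hBs i)
  have hdA : ∀ x, ∑ i, pd i (A i) x = 0 := ha.divfree t hI
  have hdB : ∀ x, ∑ i, pd i (B i) x = 0 := hb.divfree t hI
  have hdw : ∀ x, ∑ i, pd i (w i) x = 0 := by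
    intro x
    have e : ∀ i, pd i (w i) x = pd i (A i) x - pd i (B i) x :=
      fun i => congrFun (pd_sub (hAs i) (hBs i) i) x
    simp_rw [e]
    rw [Finset.sum_sub_distrib, hdA, hdB, sub_zero]
  have h1 : ∀ i, HasDerivAt (fun s => ∫ x in cube, (a s x i - b s x i) ^ 2)
      (2 * ∫ x in cube, w i x * (dt (fun s y => a s y i) t x - dt (fun s y => b s y i) t x)) t := by
    intro i
    have hF : ContDiffOn ℝ 1 (fun z : ℝ × V => (a z.1 z.2 i - b z.1 z.2 i) ^ 2)
        (Ioo 0 T ×ˢ univ) :=
      ((mono_Ioo (f := fun s y => a s y i) (ha.smooth_c i) (by norm_cast)).sub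
        (mono_Ioo (f := fun s y => b s y i) (hb.smooth_c i) (by norm_cast))).pow 2
    have key := hasDerivAt_int (F := fun s x => (a s x i - b s x i) ^ 2) hF ht
    refine key.congr_deriv ?_
    rw [← integral_const_mul]
    congr 1
    funext x
    have h2 : HasDerivAt (fun s => a s x i) (dt (fun s y => a s y i) t x) t := by
      have := hasDerivAt_slice (F := fun s y => a s y i)
        (mono_Ioo (f := fun s y => a s y i) (ha.smooth_c i) (by norm_cast)) ht x
      rwa [← H459R3.NS.dt_eq (f := fun s y => a s y i) (ha.smooth_c i) ht x] at this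
    have h2' : HasDerivAt (fun s => b s x i) (dt (fun s y => b s y i) t x) t := by
      have := hasDerivAt_slice (F := fun s y => b s y i)
        (mono_Ioo (f := fun s y => b s y i) (hb.smooth_c i) (by norm_cast)) ht x
      rwa [← H459R3.NS.dt_eq (f := fun s y => b s y i) (hb.smooth_c i) ht x] at this
    have h3 : HasDerivAt (fun s => (a s x i - b s x i) ^ 2) _ t := (h2.sub h2').pow 2
    rw [h3.deriv]
    simp only [hw, hA, hB, Pi.sub_apply]
    push_cast
    ring
  have h2 : HasDerivAt (fun s => energy (fun y => a s y - b s y))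
      (∑ i, 2 * ∫ x in cube, w i x * (dt (fun s y => a s y i) t x - dt (fun s y => b s y i) t x))
      t :=
    HasDerivAt.fun_sum fun i _ => h1 i
  refine h2.congr_deriv ?_
  rw [← Finset.mul_sum]
  congr 1
  set P : V → ℝ := fun x => p t x - q t x with hP
  have hPs : SP P := (ha.sp_p hI).sub (hb.sp_p hI)
  have e1 : ∀ i, ∫ x in cube, w i x * (dt (fun s y => a s y i) t x - dt (fun s y => b s y i) t x)
      = μ * (∫ x in cube, lap (A i) x * w i x) - l * (∫ x in cube, lap (B i) x * w i x)
        - (∫ x in cube, (A i x - B i x) * (conv A i x - conv B i x))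
        - ∫ x in cube, w i x * pd i P x := by
    intro i
    have e : ∀ x, w i x * (dt (fun s y => a s y i) t x - dt (fun s y => b s y i) t x)
        = μ * (lap (A i) x * w i x) - l * (lap (B i) x * w i x)
          - (A i x - B i x) * (conv A i x - conv B i x) - w i x * pd i P x := by
      intro x
      have a1 : pd i P x = pd i (p t) x - pd i (q t) x :=
        congrFun (pd_sub (ha.sp_p hI) (hb.sp_p hI) i) x
      rw [ha.dt_eq ht, hb.dt_eq ht, a1]
      simp only [hw]
      ring
    simp_rw [e]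
    have i0 : IntegrableOn (fun x => μ * (lap (A i) x * w i x)) cube :=
      ((hAs i).lap.mul (hws i)).int.const_mul _
    have i1 : IntegrableOn (fun x => l * (lap (B i) x * w i x)) cube :=
      ((hBs i).lap.mul (hws i)).int.const_mul _
    have i2 : IntegrableOn (fun x => (A i x - B i x) * (conv A i x - conv B i x)) cube :=
      ((hws i).mul ((sp_conv hAs i).sub (sp_conv hBs i))).int
    have i3 : IntegrableOn (fun x => w i x * pd i P x) cube := ((hws i).mul (hPs.pd i)).int
    have i01 : IntegrableOn (fun x => μ * (lap (A i) x * w i x) - l * (lap (B i) x * w i x))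
        cube := i0.sub i1
    have i012 : IntegrableOn (fun x => μ * (lap (A i) x * w i x) - l * (lap (B i) x * w i x)
        - (A i x - B i x) * (conv A i x - conv B i x)) cube := i01.sub i2
    rw [integral_sub i012 i3, integral_sub i01 i2, integral_sub i0 i1, integral_const_mul,
      integral_const_mul]
  simp_rw [e1]
  rw [Finset.sum_sub_distrib, Finset.sum_sub_distrib, Finset.sum_sub_distrib, ← Finset.mul_sum,
    ← Finset.mul_sum, int_press hws hdw hPs, conv_diff hAs hBs hdA, sub_zero]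

/-- the first derivatives are bounded by the function and its third derivatives -/
theorem enstrophy_le {v : V → V} (hv : ∀ i, SP (fun y => v y i)) :
    enstrophy v ≤ energy v + dsq v := by
  unfold enstrophy energy dsq
  rw [← Finset.sum_add_distrib]
  refine Finset.sum_le_sum fun l _ => ?_
  set f : V → ℝ := fun y => v y l with hf
  have sf : SP f := hv l
  set A : ℝ := ∑ j, ∫ x in cube, pd j f x ^ 2 with hA
  have hLA : A = -∫ x in cube, lap f x * f x := by
    rw [int_lap_mul sf sf, neg_neg, hA]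
    exact Finset.sum_congr rfl fun j _ => by simp_rw [sq]
  have h1 : A ≤ nrm f * nrm (lap f) := by
    rw [hLA]
    have := abs_int_mul_le sf.lap.cont sf.cont
    rw [mul_comm]
    exact (neg_le_abs _).trans this
  have h2 : nrm (lap f) ^ 2 ≤ ∑ j, nrm (pd j (lap f)) * nrm (pd j f) := by
    rw [nrm_sq]
    have e : ∫ x in cube, lap f x ^ 2 = -∑ j, ∫ x in cube, pd j f x * pd j (lap f) x := by
      rw [← int_lap_mul sf sf.lap]
      simp_rw [sq]
    rw [e, ← Finset.sum_neg_distrib]
    refine Finset.sum_le_sum fun j _ => ?_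
    have := abs_int_mul_le (sf.pd j).cont (sf.lap.pd j).cont
    rw [mul_comm]
    exact (neg_le_abs _).trans this
  have h3 : ∀ j, nrm (pd j (lap f)) ^ 2 ≤ 3 * ∑ k, ∫ x in cube, d3 j k k f x ^ 2 := by
    intro j
    have e : ∀ x, pd j (lap f) x = ∑ k, d3 j k k f x := fun x => by
      unfold lap d3
      exact pd_sum (fun k _ => (sf.pd k).pd k) j x
    rw [nrm_sq]
    have hs : ∀ k, SP (d3 j k k f) := fun k => ((sf.pd k).pd k).pd j
    have hk : ∀ k ∈ (Finset.univ : Finset (Fin 3)),
        Integrable (fun x => d3 j k k f x ^ 2) (volume.restrict cube) :=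
      fun k _ => integrableOn_cube ((hs k).cont.pow 2)
    rw [← integral_finsetSum _ hk, ← integral_const_mul]
    refine integral_mono (integrableOn_cube ((sf.lap.pd j).cont.pow 2)) ?_ fun x => ?_
    · refine (integrableOn_cube ?_)
      exact continuous_const.mul (continuous_finsetSum _ fun k _ => (hs k).cont.pow 2)
    · simp only
      rw [e x, Fin.sum_univ_three, Fin.sum_univ_three]
      nlinarith [sq_nonneg (d3 j 0 0 f x - d3 j 1 1 f x), sq_nonneg (d3 j 0 0 f x - d3 j 2 2 f x),
        sq_nonneg (d3 j 1 1 f x - d3 j 2 2 f x)]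
  have h4 : ∑ j, ∑ k, ∫ x in cube, d3 j k k f x ^ 2
      ≤ ∑ i, ∑ j, ∑ k, ∫ x in cube, d3 i j k f x ^ 2 := by
    refine Finset.sum_le_sum fun i _ => Finset.sum_le_sum fun j _ => ?_
    exact Finset.single_le_sum (f := fun k => ∫ x in cube, d3 i j k f x ^ 2)
      (fun _ _ => integral_nonneg fun _ => sq_nonneg _) (Finset.mem_univ j)
  have h5 : A = ∑ j, nrm (pd j f) ^ 2 := by
    rw [hA]
    exact Finset.sum_congr rfl fun j _ => (nrm_sq _).symm
  have h6 : nrm f ^ 2 = ∫ x in cube, f x ^ 2 := nrm_sq f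
  set Z : ℝ := ∑ i, ∑ j, ∑ k, ∫ x in cube, d3 i j k f x ^ 2 with hZ
  have h7 : ∑ j, nrm (pd j (lap f)) ^ 2 ≤ 3 * Z := by
    refine (Finset.sum_le_sum fun j _ => h3 j).trans ?_
    rw [← Finset.mul_sum]
    linarith
  have h8 : ∑ j, nrm (pd j (lap f)) * nrm (pd j f)
      ≤ 1 / 2 * ∑ j, nrm (pd j (lap f)) ^ 2 + 1 / 2 * ∑ j, nrm (pd j f) ^ 2 := by
    rw [Finset.mul_sum, Finset.mul_sum, ← Finset.sum_add_distrib]
    refine Finset.sum_le_sum fun j _ => ?_
    nlinarith [sq_nonneg (nrm (pd j (lap f)) - nrm (pd j f))]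
  rw [← h5] at h8
  rw [← h6]
  nlinarith [sq_nonneg (nrm f - nrm (lap f)), sq_nonneg (nrm f)]

end Pool.Agent.U571.EG
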