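import Pool.Agent.U571.EG.Rel

/-!
The third derivatives of a field are controlled by the strain of a field which is near in `L²`.
-/

set_option autoImplicit false

open MeasureTheory Set Filter Topology
open scoped ContDiff ENNReal

namespace Pool.Agent.U571.EG

open H459R3.NS H459R3.EU Pool.Agent.TH340.PS

/-- the growth of the third derivatives in terms of the strain -/
theorem dsq_growth {ν T : ℝ} (hν : 0 ≤ ν) {u : ℝ → V → V} {p : ℝ → V → ℝ} (h : IsSol ν T u p)
    {t : ℝ} (ht : t ∈ Ico 0 T) {s : ℝ → ℝ} (hs : IntegrableOn s (Icc 0 t))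
    (hb : ∀ τ ∈ Ioo 0 t, ∀ i j x, |str (fun k y => u τ y k) i j x| ≤ s τ) :
    dsq (u t) ≤ dsq (u 0) * Real.exp (41310 * ∫ τ in (0 : ℝ)..t, s τ) := by
  have hs0 : ∀ τ ∈ Ioo 0 t, 0 ≤ s τ := fun τ hτ => (abs_nonneg _).trans (hb τ hτ 0 0 0)
  refine gron (g := fun τ => 41310 * s τ) ht.1 (fun τ => dsq_nonneg (u τ))
    ((dsq_continuousOn h).mono fun τ hτ => ⟨hτ.1, hτ.2.trans_lt ht.2⟩)
    (fun τ hτ => dsq_hasDerivAt h ⟨hτ.1, hτ.2.trans ht.2⟩)
    (fun τ hτ => mul_nonneg (by norm_num) (hs0 τ hτ)) (hs.const_mul _)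
    (le_of_eq (by rw [intervalIntegral.integral_const_mul])) fun τ hτ => ?_
  have hI : τ ∈ Ico 0 T := ⟨hτ.1.le, hτ.2.trans ht.2⟩
  have hB : BS (fun k y => u τ y k) (s τ) (Real.sqrt (dsq (u τ))) :=
    ⟨fun i => h.sp hI i, hb τ hτ, fun l i j k => nrm_le_third (u τ) l i j k⟩
  have k1 := Q3_le hB (h.divfree τ hI)
  rw [Real.sq_sqrt (dsq_nonneg _)] at k1
  have k2 := (abs_le.1 k1).1
  have f0 : 0 ≤ 2 * ν * fourth (fun i y => u τ y i) :=
    mul_nonneg (by positivity) (fourth_nonneg _)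
  linarith

noncomputable def Mx (D K T : ℝ) : ℝ := (D + 1) * Real.exp (41310 * (K + T))

noncomputable def Rx (M : ℝ) : ℝ := 36 * Real.sqrt C7 * Real.sqrt (2 * M) + 1

theorem exists_bound {f : V → ℝ} (hf : SP f) : ∃ s : ℝ, ∀ x, |f x| ≤ s := by
  obtain ⟨C, hC⟩ := (isCompact_Icc (a := (0 : V)) (b := 1)).exists_bound_of_continuousOn
    hf.cont.continuousOn
  exact ⟨C, fun x => per_abs_le hf.per (fun y hy => hC y hy) x⟩

theorem exists_str_bound {v : Fin 3 → V → ℝ} (hv : ∀ i, SP (v i)) :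
    ∃ s : ℝ, ∀ i j x, |str v i j x| ≤ s := by
  choose C hC using fun i j => exists_bound (sp_str hv i j)
  refine ⟨∑ i, ∑ j, |C i j|, fun i j x => (hC i j x).trans ((le_abs_self _).trans ?_)⟩
  exact (Finset.single_le_sum (f := fun j => |C i j|) (fun _ _ => abs_nonneg _)
    (Finset.mem_univ j)).trans (Finset.single_le_sum (f := fun i => ∑ j, |C i j|)
      (fun _ _ => Finset.sum_nonneg fun _ _ => abs_nonneg _) (Finset.mem_univ i))

theorem nrm_le_of_energy {w : V → V} {δ : ℝ} (hδ : 0 ≤ δ) (h : energy w ≤ δ ^ 2) (i : Fin 3) :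
    nrm (fun y => w y i) ≤ δ := by
  refine abs_le_of_sq_le_sq' ?_ hδ |>.2
  rw [nrm_sq]
  exact (Finset.single_le_sum (f := fun i => ∫ x in cube, w x i ^ 2)
    (fun _ _ => integral_nonneg fun _ => sq_nonneg _) (Finset.mem_univ i)).trans h

/-- continuation argument -/
theorem bootstrap {T M : ℝ} {y : ℝ → ℝ} (hM : 0 < M) (hc : ContinuousOn y (Ico 0 T))
    (h : ∀ t ∈ Ico 0 T, (∀ s ∈ Icc 0 t, y s ≤ 2 * M) → y t ≤ M)
    (h0 : y 0 ≤ M) : ∀ t ∈ Ico 0 T, y t ≤ M := by
  have key : ∀ t ∈ Ico 0 T, y t ≤ 2 * M := by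
    by_contra hcon
    push Not at hcon
    obtain ⟨t₁, ht₁, hgt⟩ := hcon
    set A : Set ℝ := {s ∈ Icc 0 t₁ | 2 * M ≤ y s} with hA
    have hsub : Icc 0 t₁ ⊆ Ico 0 T := fun s hs => ⟨hs.1, hs.2.trans_lt ht₁.2⟩
    have hcl : IsClosed A := by
      have := (hc.mono hsub).preimage_isClosed_of_isClosed isClosed_Icc (isClosed_Ici (a := 2 * M))
      exact this
    have hne : A.Nonempty := ⟨t₁, ⟨ht₁.1, le_rfl⟩, hgt.le⟩
    have hbd : BddBelow A := ⟨0, fun s hs => hs.1.1⟩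
    have hmem := hcl.csInf_mem hne hbd
    set s₀ := sInf A with hs₀
    have hs₀I : s₀ ∈ Icc 0 t₁ := hmem.1
    have hlt : ∀ s ∈ Ico 0 s₀, y s < 2 * M := by
      intro s hs
      by_contra hge
      push Not at hge
      have : s ∈ A := ⟨⟨hs.1, hs.2.le.trans hs₀I.2⟩, hge⟩
      exact absurd (csInf_le hbd this) (not_le.2 hs.2)
    have hpos : 0 < s₀ := by
      rcases hs₀I.1.eq_or_lt with h' | h'
      · exfalso
        have : 2 * M ≤ y 0 := by rw [h']; exact hmem.2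
        linarith
      · exact h'
    have hle : y s₀ ≤ 2 * M := by
      have hcw : ContinuousWithinAt y (Ico 0 s₀) s₀ :=
        (hc s₀ (hsub hs₀I)).mono fun s hs => ⟨hs.1, hs.2.trans (hsub hs₀I).2⟩
      have hcl2 : s₀ ∈ closure (Ico 0 s₀) := by
        rw [closure_Ico hpos.ne]
        exact ⟨hpos.le, le_rfl⟩
      exact hcw.closure_le hcl2 continuousWithinAt_const fun s hs => (hlt s hs).le
    have := h s₀ (hsub hs₀I) fun s hs => by
      rcases hs.2.eq_or_lt with h' | h'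
      · rw [h']; exact hle
      · exact (hlt s ⟨hs.1, h'⟩).le
    linarith [hmem.2]
  intro t ht
  exact h t ht fun s hs => key s ⟨hs.1, hs.2.trans_lt ht.2⟩

theorem shadow {T K D δ : ℝ} {a b : ℝ → V → V} {β : ℝ → ℝ}
    (ha : ∀ t ∈ Ico 0 T, ∀ i, SP (fun y => a t y i))
    (hb : ∀ t ∈ Ico 0 T, ∀ i, SP (fun y => b t y i))
    (hcont : ContinuousOn (fun t => dsq (a t)) (Ico 0 T))
    (hgrow : ∀ t ∈ Ico 0 T, ∀ s : ℝ → ℝ, IntegrableOn s (Icc 0 t) →
      (∀ τ ∈ Ioo 0 t, ∀ i j x, |str (fun k y => a τ y k) i j x| ≤ s τ) →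
      dsq (a t) ≤ dsq (a 0) * Real.exp (41310 * ∫ τ in (0 : ℝ)..t, s τ))
    (hβ : IntegrableOn β (Ioo 0 T))
    (hbs : ∀ t ∈ Ioo 0 T, ∀ i j x, |str (fun k y => b t y k) i j x| ≤ β t)
    (hK : ∫ t in Ioo 0 T, β t ≤ K) (hD : dsq (a 0) ≤ D)
    (hδ0 : 0 ≤ δ)
    (hnear : ∀ t ∈ Ico 0 T, (∀ s ∈ Icc 0 t, dsq (a s) ≤ 2 * Mx D K T) →
      energy (fun y => a t y - b t y) ≤ δ ^ 2)
    (hsmall : 2592 * Rx (Mx D K T) ^ 16 * δ ≤ 1 / 2) :
    ∀ t ∈ Ico 0 T, dsq (a t) ≤ Mx D K T := by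
  rcases le_or_gt T 0 with hT | hT
  · intro t ht
    exact absurd (ht.1.trans_lt ht.2) (not_lt.2 hT)
  have hD0 : 0 ≤ D := (dsq_nonneg _).trans hD
  set M := Mx D K T with hM
  have hM0 : 0 < M := by rw [hM, Mx]; positivity
  have hβ0 : ∀ t ∈ Ioo 0 T, 0 ≤ β t := fun t ht => (abs_nonneg _).trans (hbs t ht 0 0 0)
  have hK0 : 0 ≤ K := (setIntegral_nonneg measurableSet_Ioo hβ0).trans hK
  have hR1 : 1 ≤ Rx M := by
    unfold Rx
    have := mul_nonneg (mul_nonneg (by norm_num : (0 : ℝ) ≤ 36) (Real.sqrt_nonneg C7))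
      (Real.sqrt_nonneg (2 * M))
    linarith
  have hR0 : 0 < Rx M := by linarith
  refine bootstrap hM0 hcont (fun t ht hle => ?_) ?_
  · have hi : IntegrableOn (fun τ => β τ + 1) (Icc 0 t) := by
      rw [integrableOn_Icc_iff_integrableOn_Ioc, integrableOn_Ioc_iff_integrableOn_Ioo]
      exact (hβ.mono_set (Ioo_subset_Ioo_right ht.2.le)).add
        (integrableOn_const (measure_Ioo_lt_top.ne))
    refine (hgrow t ht (fun τ => β τ + 1) hi fun τ hτ i j x => ?_).trans ?_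
    · have hτI : τ ∈ Ico 0 T := ⟨hτ.1.le, hτ.2.trans ht.2⟩
      have hτ' : τ ∈ Ioo 0 T := ⟨hτ.1, hτ.2.trans ht.2⟩
      have hX : dsq (a τ) ≤ 2 * M := hle τ ⟨hτ.1.le, hτ.2.le⟩
      have hn := hnear τ hτI fun s hs => hle s ⟨hs.1, hs.2.trans hτ.2.le⟩
      obtain ⟨s₁, hs₁⟩ := exists_str_bound (v := fun k y => a τ y k) (fun i => ha τ hτI i)
      have hBS : BS (fun k y => a τ y k) s₁ (Real.sqrt (2 * M)) :=
        ⟨fun i => ha τ hτI i, hs₁, fun l i j k =>
          (nrm_le_third (a τ) l i j k).trans (Real.sqrt_le_sqrt hX)⟩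
      have hr0 : 0 < ((Rx M)⁻¹) ^ 4 := by positivity
      have hr1 : ((Rx M)⁻¹) ^ 4 ≤ 1 := pow_le_one₀ (by positivity) (inv_le_one_of_one_le₀ hR1)
      have key := str_near hBS (v := fun k y => b τ y k) (fun i => hb τ hτI i) (hbs τ hτ')
        (fun i => nrm_le_of_energy (w := fun y => a τ y - b τ y) hδ0 hn i) hr0 hr1 i j x
      have e1 : (((Rx M)⁻¹) ^ 4) ^ (1 / 4 : ℝ) = (Rx M)⁻¹ := by
        rw [← Real.rpow_natCast, ← Real.rpow_mul (by positivity)]
        norm_num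
      have e2 : 2592 / (((Rx M)⁻¹) ^ 4) ^ 4 * δ = 2592 * Rx M ^ 16 * δ := by
        field_simp
      rw [e1, e2] at key
      have e3 : 18 * Real.sqrt C7 * ((Rx M)⁻¹ * Real.sqrt (2 * M)) ≤ 1 / 2 := by
        have : 18 * Real.sqrt C7 * ((Rx M)⁻¹ * Real.sqrt (2 * M))
            = (36 * Real.sqrt C7 * Real.sqrt (2 * M)) / Rx M / 2 := by
          field_simp
          ring
        rw [this]
        have h5 : 36 * Real.sqrt C7 * Real.sqrt (2 * M) / Rx M ≤ 1 := by
          rw [div_le_one hR0]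
          unfold Rx
          linarith
        linarith
      linarith
    · have h1 : ∫ τ in (0 : ℝ)..t, (β τ + 1) ≤ K + T := by
        rw [intervalIntegral.integral_of_le ht.1, integral_Ioc_eq_integral_Ioo,
          integral_add (hβ.mono_set (Ioo_subset_Ioo_right ht.2.le))
            (integrableOn_const (measure_Ioo_lt_top.ne))]
        have h2 : ∫ τ in Ioo 0 t, β τ ≤ ∫ τ in Ioo 0 T, β τ :=
          setIntegral_mono_set hβ ((ae_restrict_iff' measurableSet_Ioo).2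
            (Eventually.of_forall fun s hs => hβ0 s hs)) (Ioo_subset_Ioo_right ht.2.le).eventuallyLE
        have h3 : ∫ τ in Ioo 0 t, (1 : ℝ) = t := by
          rw [setIntegral_const, smul_eq_mul, mul_one, Measure.real, Real.volume_Ioo, sub_zero,
            ENNReal.toReal_ofReal ht.1]
        rw [h3]
        linarith [ht.2]
      rw [hM, Mx]
      refine mul_le_mul (hD.trans (by linarith)) (Real.exp_le_exp.2 (by linarith))
        (Real.exp_nonneg _) (by positivity)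
  · rw [hM, Mx]
    have : 1 ≤ Real.exp (41310 * (K + T)) := Real.one_le_exp (by positivity)
    nlinarith

/-- the distance in `L²` -/
theorem near_energy {μ l T c K G : ℝ} {a b : ℝ → V → V} {p q : ℝ → V → ℝ} {β : ℝ → ℝ}
    (ha : IsSol μ T a p) (hb : IsSol l T b q) (h0 : a 0 = b 0)
    (hβ : IntegrableOn β (Ioo 0 T))
    (hbs : ∀ t ∈ Ioo 0 T, ∀ i j x, |str (fun k y => b t y k) i j x| ≤ β t)
    (hK : ∫ t in Ioo 0 T, β t ≤ K) (hc : 0 ≤ c) (hG : 0 ≤ G) {t : ℝ} (ht : t ∈ Ico 0 T)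
    (hvis : ∀ s ∈ Ioo 0 t, μ * (∑ i, ∫ x in cube, lap (fun y => a s y i) x * (a s x i - b s x i))
        - l * (∑ i, ∫ x in cube, lap (fun y => b s y i) x * (a s x i - b s x i)) ≤ c / 4 * G) :
    energy (fun y => a t y - b t y) ≤ c / 2 * G * T * Real.exp (6 * K + 1) := by
  have hT : 0 < T := ht.1.trans_lt ht.2
  have hβ0 : ∀ t ∈ Ioo 0 T, 0 ≤ β t := fun t ht => (abs_nonneg _).trans (hbs t ht 0 0 0)
  set η : ℝ := c / 2 * G * T with hη
  have hη0 : 0 ≤ η := by positivity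
  have hen0 : ∀ w : V → V, 0 ≤ energy w := fun w =>
    Finset.sum_nonneg fun _ _ => integral_nonneg fun _ => sq_nonneg _
  have hcont : ContinuousOn (fun s => energy (fun y => a s y - b s y)) (Ico 0 T) := by
    unfold energy
    refine continuousOn_finsetSum _ fun i _ => ?_
    exact continuousOn_int (F := fun s x => (a s x i - b s x i) ^ 2)
      (((ha.smooth_c i).continuousOn.sub (hb.smooth_c i).continuousOn).pow 2)
  have hsub : Icc 0 t ⊆ Ico 0 T := fun s hs => ⟨hs.1, hs.2.trans_lt ht.2⟩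
  have hgi : IntegrableOn (fun τ => 6 * β τ + 1 / T) (Icc 0 t) := by
    rw [integrableOn_Icc_iff_integrableOn_Ioc, integrableOn_Ioc_iff_integrableOn_Ioo]
    exact ((hβ.mono_set (Ioo_subset_Ioo_right ht.2.le)).const_mul _).add
      (integrableOn_const (measure_Ioo_lt_top.ne))
  have hgB : ∫ τ in (0 : ℝ)..t, (6 * β τ + 1 / T) ≤ 6 * K + 1 := by
    rw [intervalIntegral.integral_of_le ht.1, integral_Ioc_eq_integral_Ioo,
      integral_add ((hβ.mono_set (Ioo_subset_Ioo_right ht.2.le)).const_mul _)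
        (integrableOn_const (measure_Ioo_lt_top.ne)), integral_const_mul]
    have h2 : ∫ τ in Ioo 0 t, β τ ≤ ∫ τ in Ioo 0 T, β τ :=
      setIntegral_mono_set hβ ((ae_restrict_iff' measurableSet_Ioo).2
        (Eventually.of_forall fun s hs => hβ0 s hs)) (Ioo_subset_Ioo_right ht.2.le).eventuallyLE
    have h3 : ∫ τ in Ioo 0 t, (1 / T : ℝ) = t / T := by
      rw [setIntegral_const, smul_eq_mul, Measure.real, Real.volume_Ioo, sub_zero,
        ENNReal.toReal_ofReal ht.1]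
      ring
    have h4 : t / T ≤ 1 := (div_le_one hT).2 ht.2.le
    rw [h3]
    linarith
  have key := gron (y := fun s => energy (fun y => a s y - b s y) + η)
    (g := fun τ => 6 * β τ + 1 / T) ht.1
    (fun s => add_nonneg (hen0 _) hη0) ((hcont.mono hsub).add continuousOn_const)
    (fun s hs => (rel_hasDerivAt ha hb ⟨hs.1, hs.2.trans ht.2⟩).add_const η)
    (fun s hs => by
      have := hβ0 s ⟨hs.1, hs.2.trans ht.2⟩
      positivity) hgi hgB (fun s hs => by
        have hs' : s ∈ Ioo 0 T := ⟨hs.1, hs.2.trans ht.2⟩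
        have hI : s ∈ Ico 0 T := ⟨hs'.1.le, hs'.2⟩
        have h1 := hvis s hs
        have h2 := quad_le (w := fun i x => a s x i - b s x i)
          (fun i => (ha.sp hI i).sub (hb.sp hI i)) (S := str (fun k y => b s y k))
          (sp_str fun i => hb.sp hI i) (hbs s hs')
        have h3 := (abs_le.1 h2).1
        have e : energy (fun y => a s y - b s y) = ∑ i, ∫ x in cube, (a s x i - b s x i) ^ 2 := rfl
        rw [← e] at h3
        have h4 : η * (1 / T) = c / 2 * G := by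
          rw [hη]
          field_simp
        have h5 := hen0 (fun y => a s y - b s y)
        have h6 := hβ0 s hs'
        have h7 : 0 ≤ 1 / T * energy (fun y => a s y - b s y) := by positivity
        have h8 : 0 ≤ 6 * β s * η := by positivity
        nlinarith)
  have e0 : energy (fun y => a 0 y - b 0 y) = 0 := by
    rw [h0]
    unfold energy
    simp
  simp only [e0, zero_add] at key
  linarith

end Pool.Agent.U571.EG
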