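import Pool.Agent.TH340.PS.EU
import Pool.Agent.H459R3.NS.Sob

/-!
The strain of a field in terms of the strain of a field which is near in `L²`.
-/

set_option autoImplicit false

open MeasureTheory Set Filter Topology
open scoped ContDiff ENNReal

namespace Pool.Agent.U571.EG

open H459R3.NS H459R3.EU Pool.Agent.TH340.PS

theorem int_box_le {g : V → ℝ} (hc : Continuous g) (hp : Per g) (h0 : ∀ x, 0 ≤ g x) :
    ∫ x in box, g x ≤ 27 * ∫ x in cube, g x := by
  have hib : IntegrableOn g box := hc.continuousOn.integrableOn_compact isCompact_Icc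
  have hic : IntegrableOn g cube := integrableOn_cube hc
  have h := lintegral_box_le (h := fun x => ENNReal.ofReal (g x))
    (ENNReal.measurable_ofReal.comp hc.measurable) (fun i x => by simp only [hp i x])
  rw [← ofReal_integral_eq_lintegral_ofReal hib (ae_of_all _ h0),
    ← ofReal_integral_eq_lintegral_ofReal hic (ae_of_all _ h0)] at h
  have e27 : (27 : ℝ≥0∞) = ENNReal.ofReal 27 := by simp
  rw [e27, ← ENNReal.ofReal_mul (by norm_num)] at h
  exact (ENNReal.ofReal_le_ofReal_iff (mul_nonneg (by norm_num)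
    (integral_nonneg fun x => h0 x))).1 h

theorem int_abs_le_nrm {f : V → ℝ} (hf : Continuous f) : ∫ x in cube, |f x| ≤ nrm f := by
  have h := abs_int_mul_le hf.abs (g := fun _ => (1 : ℝ)) continuous_const
  have e1 : nrm (fun _ : V => (1 : ℝ)) = 1 := by
    unfold nrm
    simp [volume_cube, Measure.real]
  have e2 : nrm (fun x => |f x|) = nrm f := by
    unfold nrm
    simp [sq_abs]
  rw [e1, mul_one, e2] at h
  simp only [mul_one] at h
  exact (le_abs_self _).trans h

/-- a weighted integral over a small ball -/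
theorem int_ball_le {f : V → ℝ} (hf : Continuous f) (hp : Per f) {x : V} (hx : x ∈ cube) {r : ℝ}
    (hr : 0 < r) (hr1 : r ≤ 1) (j : Fin 3) :
    |∫ y, bmp 2 r y * (y j * f (x + y))| ≤ 27 * r ^ 5 * ∫ z in cube, |f z| := by
  have hib : IntegrableOn (fun z => |f z|) box :=
    hf.abs.continuousOn.integrableOn_compact isCompact_Icc
  have hmb : MeasurableSet box := measurableSet_Icc
  have hi : Integrable (box.indicator fun z => |f z|) := (integrable_indicator_iff hmb).2 hib
  have hi2 : Integrable (fun y => r ^ 5 * (box.indicator fun z => |f z|) (x + y)) :=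
    (hi.comp_add_left x).const_mul _
  have hle : ∀ y, ‖bmp 2 r y * (y j * f (x + y))‖ ≤ r ^ 5 * (box.indicator fun z => |f z|) (x + y) := by
    intro y
    by_cases hy : r ^ 2 ≤ rho y
    · have : bmp 2 r y = 0 := bmp_zero (n := 1) hy
      rw [this]
      simp only [zero_mul, norm_zero]
      refine mul_nonneg (by positivity) (indicator_nonneg (fun _ _ => abs_nonneg _) _)
    · push Not at hy
      have hyi : ∀ i, |y i| ≤ r := fun i => by
        have h1 : y i ^ 2 ≤ r ^ 2 := (sq_le_rho y i).trans hy.le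
        exact abs_le_of_sq_le_sq h1 hr.le
      have hmem : x + y ∈ box := by
        refine ⟨fun i => ?_, fun i => ?_⟩
        · have := (abs_le.1 (hyi i)).1
          have h2 : (0 : ℝ) ≤ x i := hx.1 i
          have : (-1 : ℝ) ≤ x i + y i := by linarith
          simpa using this
        · have := (abs_le.1 (hyi i)).2
          have h2 : x i ≤ (1 : ℝ) := hx.2 i
          have : x i + y i ≤ (2 : ℝ) := by linarith
          simpa using this
      rw [indicator_of_mem hmem, norm_mul, norm_mul, Real.norm_eq_abs, Real.norm_eq_abs,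
        Real.norm_eq_abs, abs_of_nonneg (bmp_nonneg 2 r y)]
      have hb : bmp 2 r y ≤ (r ^ 2) ^ 2 := by
        unfold bmp
        refine pow_le_pow_left₀ (le_max_right _ _) ?_ 2
        exact max_le (by have := rho_nonneg y; linarith) (by positivity)
      calc bmp 2 r y * (|y j| * |f (x + y)|) ≤ (r ^ 2) ^ 2 * (r * |f (x + y)|) := by
            refine mul_le_mul hb ?_ (by positivity) (by positivity)
            exact mul_le_mul_of_nonneg_right (hyi j) (abs_nonneg _)
        _ = r ^ 5 * |f (x + y)| := by ring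
  have h1 := norm_integral_le_of_norm_le hi2 (ae_of_all _ hle)
  rw [Real.norm_eq_abs, integral_const_mul,
    integral_add_left_eq_self (box.indicator fun z => |f z|) x, integral_indicator hmb] at h1
  have h2 := int_box_le hf.abs (fun i x => by simp only [hp i x]) (fun _ => abs_nonneg _)
  refine h1.trans ?_
  have h3 : (0 : ℝ) ≤ r ^ 5 := by positivity
  nlinarith [mul_le_mul_of_nonneg_left h2 h3]

/-- lower bound for the total weight -/
theorem bmp3_lower {r : ℝ} (hr : 0 < r) : r ^ 9 / 16 ≤ ∫ y, bmp 3 r y := by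
  set S : Set V := Icc (fun _ => -(r / 4)) (fun _ => r / 4) with hS
  have hmS : MeasurableSet S := measurableSet_Icc
  have hvol : (volume : Measure V).real S = (r / 2) ^ 3 := by
    rw [hS, Measure.real, Real.volume_Icc_pi_toReal (fun i => by
      show -(r / 4) ≤ r / 4
      linarith)]
    simp only [Finset.prod_const, Finset.card_univ, Fintype.card_fin]
    ring
  have hint : Integrable (bmp 3 r) := (bmp_cont 3 r).integrable_of_hasCompactSupport (bmp_compact 2 r)
  have h1 : ∫ y in S, r ^ 6 / 2 ≤ ∫ y in S, bmp 3 r y := by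
    refine setIntegral_mono_on (integrableOn_const (by
      rw [hS]; exact isCompact_Icc.measure_lt_top.ne)) hint.integrableOn hmS fun y hy => ?_
    have hyi : ∀ i, y i ^ 2 ≤ (r / 4) ^ 2 := fun i => by
      have a1 : -(r / 4) ≤ y i := hy.1 i
      have a2 : y i ≤ r / 4 := hy.2 i
      nlinarith
    have h2 : rho y ≤ 3 * (r / 4) ^ 2 := by
      unfold rho
      rw [Fin.sum_univ_three]
      linarith [hyi 0, hyi 1, hyi 2]
    have h3 : 13 / 16 * r ^ 2 ≤ max (r ^ 2 - rho y) 0 := le_max_of_le_left (by nlinarith)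
    unfold bmp
    calc r ^ 6 / 2 ≤ (13 / 16 * r ^ 2) ^ 3 := by
          have : (0 : ℝ) ≤ r ^ 6 := by positivity
          nlinarith
      _ ≤ _ := pow_le_pow_left₀ (by positivity) h3 3
  rw [setIntegral_const, hvol, smul_eq_mul] at h1
  have h2 : ∫ y in S, bmp 3 r y ≤ ∫ y, bmp 3 r y :=
    setIntegral_le_integral hint (ae_of_all _ fun y => bmp_nonneg 3 r y)
  calc r ^ 9 / 16 = (r / 2) ^ 3 * (r ^ 6 / 2) := by ring
    _ ≤ _ := h1.trans h2

/-- the average of a derivative -/
theorem mv_pd_le {f : V → ℝ} (hf : SP f) {x : V} (hx : x ∈ cube) {r : ℝ}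
    (hr : 0 < r) (hr1 : r ≤ 1) (j : Fin 3) :
    |mv r (pd j f) x| ≤ 2592 / r ^ 4 * nrm f := by
  have hB := int_bmp3_pos hr
  have hL := bmp3_lower hr
  unfold mv
  have e1 : ∫ y, bmp 3 r y * pd j f (x + y)
      = 2 * ((1 + 2 : ℕ) : ℝ) * ∫ y, bmp 2 r y * (y j * f (x + y)) := by
    have h := ibp_bmp 1 r (f := fun y => f (x + y)) ((hf.smooth.comp (contDiff_const.add contDiff_id)).of_le
      (by norm_cast)) j
    simp_rw [pd_shift] at h
    exact h
  rw [e1, abs_mul, abs_mul, abs_inv, abs_of_pos hB]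
  have h2 := int_ball_le hf.cont hf.per hx hr hr1 j
  have h3 := int_abs_le_nrm hf.cont
  have h4 : |2 * ((1 + 2 : ℕ) : ℝ)| = 6 := by norm_num
  rw [h4]
  have h5 : (∫ y, bmp 3 r y)⁻¹ ≤ 16 / r ^ 9 := by
    rw [inv_le_comm₀ hB (by positivity)]
    rw [inv_div]
    exact hL
  have h6 : |∫ y, bmp 2 r y * (y j * f (x + y))| ≤ 27 * r ^ 5 * nrm f :=
    h2.trans (mul_le_mul_of_nonneg_left h3 (by positivity))
  calc (∫ y, bmp 3 r y)⁻¹ * (6 * |∫ y, bmp 2 r y * (y j * f (x + y))|)
      ≤ 16 / r ^ 9 * (6 * (27 * r ^ 5 * nrm f)) := by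
        refine mul_le_mul h5 ?_ (by positivity) (by positivity)
        linarith
    _ = 2592 / r ^ 4 * nrm f := by
        field_simp
        ring

theorem mv_abs_le {f : V → ℝ} {b : ℝ} (hb : ∀ y, |f y| ≤ b) {r : ℝ}
    (hr : 0 < r) (x : V) : |mv r f x| ≤ b := by
  have hB := int_bmp3_pos hr
  unfold mv
  rw [abs_mul, abs_inv, abs_of_pos hB, inv_mul_le_iff₀ hB]
  have hint : Integrable (bmp 3 r) := (bmp_cont 3 r).integrable_of_hasCompactSupport (bmp_compact 2 r)
  have h1 := norm_integral_le_of_norm_le (hint.mul_const b) (ae_of_all volume fun y => by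
    show ‖bmp 3 r y * f (x + y)‖ ≤ bmp 3 r y * b
    rw [norm_mul, Real.norm_eq_abs, Real.norm_eq_abs, abs_of_nonneg (bmp_nonneg 3 r y)]
    exact mul_le_mul_of_nonneg_left (hb _) (bmp_nonneg 3 r y))
  rw [integral_mul_const] at h1
  exact h1

theorem per_abs_le {f : V → ℝ} (hp : Per f) {b : ℝ} (hb : ∀ y ∈ cube, |f y| ≤ b) (x : V) :
    |f x| ≤ b := by
  have h := hp.int (fun i => -⌊x i⌋) x
  rw [← h]
  refine hb _ ⟨fun i => ?_, fun i => ?_⟩
  · simp only [Pi.add_apply, Int.cast_neg, Pi.zero_apply]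
    have := Int.floor_le (x i)
    linarith
  · simp only [Pi.add_apply, Int.cast_neg, Pi.one_apply]
    have := Int.lt_floor_add_one (x i)
    linarith

/-- The strain of `u` is at most that of `v` up to terms which are small if `u - v` is small in
`L²`. -/
theorem str_near {u v : Fin 3 → V → ℝ} {s X b δ : ℝ} (hu : BS u s X) (hv : ∀ i, SP (v i))
    (hb : ∀ i j y, |str v i j y| ≤ b) (hδ : ∀ i, nrm (fun y => u i y - v i y) ≤ δ) {r : ℝ}
    (hr : 0 < r) (hr1 : r ≤ 1) (i j : Fin 3) (x : V) :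
    |str u i j x| ≤ b + 2592 / r ^ 4 * δ + 18 * Real.sqrt C7 * (r ^ (1 / 4 : ℝ) * X) := by
  have hsu : ∀ i j, SP (str u i j) := sp_str hu.sp
  have hsv : ∀ i j, SP (str v i j) := sp_str hv
  refine per_abs_le (hsu i j).per (fun x hx => ?_) x
  set w : Fin 3 → V → ℝ := fun i y => u i y - v i y with hw
  have hws : ∀ i, SP (w i) := fun i => (hu.sp i).sub (hv i)
  have h1 := mv_sub_le (hsu i j) x hr
  have h2 := nrm_lap_str hu i j
  have e1 : str u i j = fun y => str v i j y + (1 / 2 * pd i (w j) y + 1 / 2 * pd j (w i) y) := by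
    funext y
    have a1 : pd i (w j) y = pd i (u j) y - pd i (v j) y := congrFun (pd_sub (hu.sp j) (hv j) i) y
    have a2 : pd j (w i) y = pd j (u i) y - pd j (v i) y := congrFun (pd_sub (hu.sp i) (hv i) j) y
    unfold str
    rw [a1, a2]
    ring
  have e2 : mv r (str u i j) x = mv r (str v i j) x
      + (1 / 2 * mv r (pd i (w j)) x + 1 / 2 * mv r (pd j (w i)) x) := by
    rw [e1, mv_add (g := fun y => 1 / 2 * pd i (w j) y + 1 / 2 * pd j (w i) y) (hsv i j).cont
      ((continuous_const.mul ((hws j).pd i).cont).add (continuous_const.mul ((hws i).pd j).cont)),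
      mv_add (f := fun y => 1 / 2 * pd i (w j) y) (g := fun y => 1 / 2 * pd j (w i) y)
      (continuous_const.mul ((hws j).pd i).cont) (continuous_const.mul ((hws i).pd j).cont),
      mv_const_mul, mv_const_mul]
  have h3 := mv_abs_le (hb i j) hr x
  have h4 := mv_pd_le (hws j) hx hr hr1 i
  have h5 := mv_pd_le (hws i) hx hr hr1 j
  have h6 : 2592 / r ^ 4 * nrm (w j) ≤ 2592 / r ^ 4 * δ :=
    mul_le_mul_of_nonneg_left (hδ j) (by positivity)
  have h7 : 2592 / r ^ 4 * nrm (w i) ≤ 2592 / r ^ 4 * δ :=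
    mul_le_mul_of_nonneg_left (hδ i) (by positivity)
  have h8 : 6 * Real.sqrt C7 * (r ^ (1 / 4 : ℝ) * nrm (lap (str u i j)))
      ≤ 18 * Real.sqrt C7 * (r ^ (1 / 4 : ℝ) * X) := by
    calc _ ≤ 6 * Real.sqrt C7 * (r ^ (1 / 4 : ℝ) * (3 * X)) := by gcongr
      _ = _ := by ring
  rw [abs_le] at h1 h3 h4 h5 ⊢
  constructor <;> linarith [h1.1, h1.2, h3.1, h3.2, h4.1, h4.2, h5.1, h5.2]

end Pool.Agent.U571.EG
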