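import Pool.Agent.U571.EG.Shadow

/-!
Euler solutions and Navier-Stokes solutions with the same initial velocity.
-/

set_option autoImplicit false

open MeasureTheory Set Filter Topology
open scoped ContDiff ENNReal

namespace Pool.Agent.U571.EG

open H459R3.NS H459R3.EU Pool.Agent.TH340.PS

theorem energy_nn (w : V → V) : 0 ≤ energy w :=
  Finset.sum_nonneg fun _ _ => integral_nonneg fun _ => sq_nonneg _

theorem enstrophy_nonneg (w : V → V) : 0 ≤ enstrophy w :=
  Finset.sum_nonneg fun _ _ => Finset.sum_nonneg fun _ _ => integral_nonneg fun _ => sq_nonneg _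

/-- the energy does not increase -/
theorem energy_le {ν T : ℝ} (hν : 0 ≤ ν) {u : ℝ → V → V} {p : ℝ → V → ℝ} (h : IsSol ν T u p)
    {t : ℝ} (ht : t ∈ Ico 0 T) : energy (u t) ≤ energy (u 0) := by
  have key := gron (y := fun s => energy (u s)) (D := fun s => -(2 * ν * enstrophy (u s)))
    (g := fun _ => 0) (B := 0) ht.1 (fun s => energy_nn _)
    (h.energy_continuousOn.mono fun s hs => ⟨hs.1, hs.2.trans_lt ht.2⟩)
    (fun s hs => h.energy_hasDerivAt ⟨hs.1, hs.2.trans ht.2⟩) (fun _ _ => le_rfl)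
    integrableOn_zero (by simp) (fun s hs => by
      have := enstrophy_nonneg (u s)
      have : 0 ≤ 2 * ν * enstrophy (u s) := by positivity
      simp only [zero_mul]
      linarith)
  simpa using key

/-- viscous term, viscosity in the second equation -/
theorem visc_second {ν : ℝ} (hν : 0 ≤ ν) {a b : V → V} (ha : ∀ i, SP (fun y => a y i))
    (hb : ∀ i, SP (fun y => b y i)) :
    -(ν * (∑ i, ∫ x in cube, lap (fun y => b y i) x * (a x i - b x i)))
      ≤ ν / 4 * enstrophy a := by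
  have e : ∀ i, ∫ x in cube, lap (fun y => b y i) x * (a x i - b x i)
      = -∑ j, ∫ x in cube, pd j (fun y => b y i) x * pd j (fun y => a y i - b y i) x :=
    fun i => int_lap_mul (hb i) ((ha i).sub (hb i))
  simp_rw [e]
  rw [Finset.sum_neg_distrib, mul_neg, neg_neg, div_mul_eq_mul_div, mul_div_assoc]
  refine mul_le_mul_of_nonneg_left ?_ hν
  unfold enstrophy
  rw [Finset.sum_div]
  refine Finset.sum_le_sum fun i _ => ?_
  rw [Finset.sum_div]
  refine Finset.sum_le_sum fun j _ => ?_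
  rw [← integral_div]
  refine integral_mono (((hb i).pd j).mul (((ha i).sub (hb i)).pd j)).int
    (integrableOn_cube ((((ha i).pd j).cont.pow 2).div_const _)) fun x => ?_
  have a1 : pd j (fun y => a y i - b y i) x = pd j (fun y => a y i) x - pd j (fun y => b y i) x :=
    congrFun (pd_sub (ha i) (hb i) j) x
  simp only [a1]
  nlinarith [sq_nonneg (pd j (fun y => a y i) x - 2 * pd j (fun y => b y i) x)]

/-- viscous term, viscosity in the first equation -/
theorem visc_first {ν : ℝ} (hν : 0 ≤ ν) {a b : V → V} (ha : ∀ i, SP (fun y => a y i))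
    (hb : ∀ i, SP (fun y => b y i)) :
    ν * (∑ i, ∫ x in cube, lap (fun y => a y i) x * (a x i - b x i))
      ≤ ν / 4 * enstrophy b := by
  have e : ∀ i, ∫ x in cube, lap (fun y => a y i) x * (a x i - b x i)
      = -∑ j, ∫ x in cube, pd j (fun y => a y i) x * pd j (fun y => a y i - b y i) x :=
    fun i => int_lap_mul (ha i) ((ha i).sub (hb i))
  simp_rw [e]
  rw [div_mul_eq_mul_div, mul_div_assoc]
  refine mul_le_mul_of_nonneg_left ?_ hν
  unfold enstrophy
  rw [Finset.sum_div]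
  refine Finset.sum_le_sum fun i _ => ?_
  rw [Finset.sum_div, ← Finset.sum_neg_distrib]
  refine Finset.sum_le_sum fun j _ => ?_
  rw [← integral_div, ← integral_neg]
  refine integral_mono (((ha i).pd j).mul (((ha i).sub (hb i)).pd j)).int.neg
    (integrableOn_cube ((((hb i).pd j).cont.pow 2).div_const _)) fun x => ?_
  have a1 : pd j (fun y => a y i - b y i) x = pd j (fun y => a y i) x - pd j (fun y => b y i) x :=
    congrFun (pd_sub (ha i) (hb i) j) x
  simp only [a1]
  nlinarith [sq_nonneg (2 * pd j (fun y => a y i) x - pd j (fun y => b y i) x)]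

/-- the components of the strain -/
theorem str_le_of_strain2 {v : V → V} {b : ℝ} (hb0 : 0 ≤ b) (h : ∀ x, strain2 v x ≤ b ^ 2)
    (i j : Fin 3) (x : V) : |str (fun k y => v y k) i j x| ≤ b := by
  have h1 : str (fun i y => v y i) i j x ^ 2 ≤ strain2 v x :=
    (Finset.single_le_sum (f := fun j => str (fun i y => v y i) i j x ^ 2) (fun _ _ => sq_nonneg _)
      (Finset.mem_univ j)).trans (Finset.single_le_sum
      (f := fun i => ∑ j, str (fun i y => v y i) i j x ^ 2)
      (fun _ _ => Finset.sum_nonneg fun _ _ => sq_nonneg _) (Finset.mem_univ i))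
  exact abs_le_of_sq_le_sq (h1.trans (h x)) hb0

/-- The Euler solution is controlled by a Navier-Stokes solution: qualitative form with an
explicit condition. -/
theorem euler_by_ns {ν T E D K : ℝ} {u v : ℝ → V → V} {p q : ℝ → V → ℝ} {β : ℝ → ℝ}
    (hν : 0 ≤ ν) (hT : 0 < T) (hu : IsSol 0 T u p) (hv : IsSol ν T v q) (h0 : u 0 = v 0)
    (hE : energy (u 0) ≤ E) (hD : dsq (u 0) ≤ D) (hβ : IntegrableOn β (Ioo 0 T))
    (hβ0 : ∀ t ∈ Ioo 0 T, 0 ≤ β t)
    (hbs : ∀ t ∈ Ioo 0 T, ∀ x, strain2 (v t) x ≤ β t ^ 2)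
    (hK : ∫ t in Ioo 0 T, β t ≤ K)
    (hsmall : 2592 * Rx (Mx D K T) ^ 16 *
      Real.sqrt (ν / 2 * (E + 2 * Mx D K T) * T * Real.exp (6 * K + 1)) ≤ 1 / 2) :
    ∀ t ∈ Ico 0 T, dsq (u t) ≤ Mx D K T ∧
      energy (fun y => u t y - v t y) ≤ ν / 2 * (E + 2 * Mx D K T) * T * Real.exp (6 * K + 1) := by
  have hD0 : 0 ≤ D := (dsq_nonneg _).trans hD
  have hE0 : 0 ≤ E := (energy_nn _).trans hE
  have hM0 : 0 < Mx D K T := by unfold Mx; positivity
  have hstr : ∀ t ∈ Ioo 0 T, ∀ i j x, |str (fun k y => v t y k) i j x| ≤ β t :=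
    fun t ht => str_le_of_strain2 (hβ0 t ht) (hbs t ht)
  have hnear : ∀ t ∈ Ico 0 T, (∀ s ∈ Icc 0 t, dsq (u s) ≤ 2 * Mx D K T) →
      energy (fun y => u t y - v t y) ≤ ν / 2 * (E + 2 * Mx D K T) * T * Real.exp (6 * K + 1) := by
    intro t ht hle
    refine near_energy hu hv h0 hβ hstr hK hν (by positivity) ht fun s hs => ?_
    have hI : s ∈ Ico 0 T := ⟨hs.1.le, hs.2.trans ht.2⟩
    have h1 := visc_second hν (fun i => hu.sp hI i) (fun i => hv.sp hI i)
    have h2 := enstrophy_le (fun i => hu.sp hI i)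
    have h3 := energy_le le_rfl hu hI
    have h4 := hle s ⟨hs.1.le, hs.2.le⟩
    have h5 : ν / 4 * enstrophy (u s) ≤ ν / 4 * (E + 2 * Mx D K T) :=
      mul_le_mul_of_nonneg_left (by linarith) (by positivity)
    rw [zero_mul, zero_sub]
    exact h1.trans h5
  have hρ : 0 ≤ ν / 2 * (E + 2 * Mx D K T) * T * Real.exp (6 * K + 1) := by positivity
  have key := shadow (a := u) (b := v) (fun t ht i => hu.sp ht i) (fun t ht i => hv.sp ht i)
    (dsq_continuousOn hu) (fun t ht s hs hb => dsq_growth le_rfl hu ht hs hb) hβ hstr hK hD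
    (Real.sqrt_nonneg _) (fun t ht hle => by
      rw [Real.sq_sqrt hρ]
      exact hnear t ht hle) hsmall
  refine fun t ht => ⟨key t ht, hnear t ht fun s hs => ?_⟩
  have := key s ⟨hs.1, hs.2.trans_lt ht.2⟩
  linarith

/-- The Navier-Stokes solutions near a regular Euler solution. -/
theorem ns_by_euler {ν T E B K β : ℝ} {u v : ℝ → V → V} {p q : ℝ → V → ℝ}
    (hν : 0 ≤ ν) (hT : 0 < T) (hu : IsSol 0 T u p) (hv : IsSol ν T v q) (h0 : u 0 = v 0)
    (hE : energy (u 0) ≤ E) (hB : ∀ t ∈ Ico 0 T, dsq (u t) ≤ B)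
    (hbs : ∀ t ∈ Ioo 0 T, ∀ i j x, |str (fun k y => u t y k) i j x| ≤ β)
    (hK : β * T ≤ K)
    (hsmall : 2592 * Rx (Mx B K T) ^ 16 *
      Real.sqrt (ν / 2 * (E + B) * T * Real.exp (6 * K + 1)) ≤ 1 / 2) :
    ∀ t ∈ Ico 0 T, dsq (v t) ≤ Mx B K T := by
  have h0T : (0 : ℝ) ∈ Ico 0 T := ⟨le_rfl, hT⟩
  have hB0 : 0 ≤ B := (dsq_nonneg _).trans (hB 0 h0T)
  have hE0 : 0 ≤ E := (energy_nn _).trans hE
  have hβi : IntegrableOn (fun _ : ℝ => β) (Ioo 0 T) := integrableOn_const measure_Ioo_lt_top.ne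
  have hK' : ∫ _ in Ioo 0 T, β ≤ K := by
    rw [setIntegral_const, smul_eq_mul, Measure.real, Real.volume_Ioo, sub_zero,
      ENNReal.toReal_ofReal hT.le]
    linarith
  have hρ : 0 ≤ ν / 2 * (E + B) * T * Real.exp (6 * K + 1) := by positivity
  refine shadow (a := v) (b := u) (fun t ht i => hv.sp ht i) (fun t ht i => hu.sp ht i)
    (dsq_continuousOn hv) (fun t ht s hs hb => dsq_growth hν hv ht hs hb) hβi hbs hK'
    (by rw [← h0]; exact hB 0 h0T) (Real.sqrt_nonneg _) (fun t ht _ => ?_) hsmall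
  rw [Real.sq_sqrt hρ]
  refine near_energy hv hu h0.symm hβi hbs hK' hν (by positivity) ht fun s hs => ?_
  have hI : s ∈ Ico 0 T := ⟨hs.1.le, hs.2.trans ht.2⟩
  have h1 := visc_first hν (fun i => hv.sp hI i) (fun i => hu.sp hI i)
  have h2 := enstrophy_le (fun i => hu.sp hI i)
  have h3 := energy_le le_rfl hu hI
  have h4 := hB s hI
  have h5 : ν / 4 * enstrophy (u s) ≤ ν / 4 * (E + B) :=
    mul_le_mul_of_nonneg_left (by linarith) (by positivity)
  rw [zero_mul, sub_zero]
  exact h1.trans h5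

end Pool.Agent.U571.EG
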